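import Pool.Agent.Helper38.CCG.Moment

/-!
# The batch step: adding random vectors and pruning
-/

namespace Pool.Agent.Helper38.CCG

open Module

section reps

variable {F K : Type*} [Field F]

/-- Elementary words: zero, or a single nonzero entry. -/
noncomputable def el (o : Option (K × Fˣ)) : K → F := by
  classical
  exact o.elim 0 fun κ => Pi.single κ.1 (κ.2 : F)

theorem wt_el_le (o : Option (K × Fˣ)) : wt (el (F := F) o) ≤ 1 := by
  classical
  unfold wt
  cases o with
  | none => simp [el]
  | some κ =>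
    have : Function.support (el (F := F) (some κ)) ⊆ {κ.1} := by
      intro i hi
      by_contra hne
      apply hi
      simp only [Set.mem_singleton_iff] at hne
      simp [el, hne]
    exact (Set.ncard_le_ncard this (Set.finite_singleton _)).trans (by simp)

theorem sumrep [Finite K] (s : ℕ) (c : K → F) (h : wt c ≤ s) :
    ∃ f : Fin s → Option (K × Fˣ), c = ∑ r, el (F := F) (f r) := by
  classical
  induction s generalizing c with
  | zero =>
    refine ⟨fun r => r.elim0, ?_⟩
    rw [wt_eq_zero.1 (Nat.le_zero.1 h)]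
    simp
  | succ s ih =>
    by_cases hc : c = 0
    · refine ⟨fun _ => none, ?_⟩
      rw [hc]
      simp [el]
    · obtain ⟨κ, hκ⟩ := Function.ne_iff.1 hc
      rw [Pi.zero_apply] at hκ
      set c' : K → F := Function.update c κ 0 with hc'
      have hsupp : Function.support c' = Function.support c \ {κ} := by
        ext i
        by_cases hi : i = κ
        · simp [hc', hi]
        · simp [hc', hi]
      have hwt : wt c' ≤ s := by
        unfold wt at h ⊢
        rw [hsupp, Set.ncard_sdiff_singleton_of_mem hκ]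
        omega
      obtain ⟨f, hf⟩ := ih c' hwt
      refine ⟨Fin.cons (some (κ, Units.mk0 (c κ) hκ)) f, ?_⟩
      rw [Fin.sum_univ_succ]
      simp only [Fin.cons_zero, Fin.cons_succ]
      rw [← hf]
      ext i
      by_cases hi : i = κ
      · simp [hc', hi, el]
      · simp [hc', hi, el]

theorem wt_sum_le [Finite K] {s : ℕ} (f : Fin s → Option (K × Fˣ)) :
    wt (∑ r, el (F := F) (f r)) ≤ s := by
  induction s with
  | zero => simp [wt]
  | succ s ih =>
    rw [Fin.sum_univ_succ]
    refine (wt_add_le _ _).trans ?_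
    have h1 := wt_el_le (F := F) (f 0)
    have h2 := ih (fun r => f r.succ)
    omega

/-- The size of a Hamming ball. -/
theorem ball_le [Fintype K] [Fintype F] (s : ℕ) :
    {c : K → F | wt c ≤ s}.ncard ≤ (1 + Fintype.card K * (Fintype.card F - 1)) ^ s := by
  classical
  have h1 : {c : K → F | wt c ≤ s}
      ⊆ Set.range fun f : Fin s → Option (K × Fˣ) => ∑ r, el (F := F) (f r) := by
    intro c hc
    obtain ⟨f, hf⟩ := sumrep s c hc
    exact ⟨f, hf.symm⟩
  refine (Set.ncard_le_ncard h1 (Set.toFinite _)).trans ?_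
  rw [← Set.image_univ]
  refine (Set.ncard_image_le (Set.toFinite _)).trans ?_
  rw [Set.ncard_univ, Nat.card_eq_fintype_card, Fintype.card_fun, Fintype.card_option,
    Fintype.card_prod, Fintype.card_units, Fintype.card_fin, add_comm]

end reps

section families

variable {F V : Type*} [Field F] [AddCommGroup V] [Module F V]

/-- Any `t` members of the family are linearly independent. -/
def Ind {I : Type*} [Fintype I] (F : Type*) [Field F] {V : Type*} [AddCommGroup V] [Module F V]
    (t : ℕ) (x : I → V) : Prop :=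
  ∀ a : I → F, a ≠ 0 → wt a ≤ t → phi x a ≠ 0

/-- The vector `v` is a linear combination of at most `t` members of the family. -/
def Cov {I : Type*} [Fintype I] (F : Type*) [Field F] {V : Type*} [AddCommGroup V] [Module F V]
    (t : ℕ) (x : I → V) (v : V) : Prop :=
  ∃ a : I → F, wt a ≤ t ∧ phi x a = v

theorem phi_comp {I K : Type*} [Fintype I] [Fintype K] {e : I → K} (he : Function.Injective e)
    (y : K → V) (c : K → F) (hc : ∀ κ, κ ∉ Set.range e → c κ = 0) :
    phi (y ∘ e) (c ∘ e) = phi y c := by
  unfold phi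
  refine Fintype.sum_of_injective e he _ _ ?_ fun i => rfl
  intro κ hκ
  rw [hc κ hκ, zero_smul]

theorem wt_comp_le {I K : Type*} [Finite K] {e : I → K} (he : Function.Injective e)
    (c : K → F) : wt (c ∘ e) ≤ wt c := by
  unfold wt
  rw [← Set.ncard_image_of_injective _ he]
  apply Set.ncard_le_ncard _ (Set.toFinite _)
  rintro _ ⟨i, hi, rfl⟩
  exact hi

theorem wt_extend {I K : Type*} {e : I → K} (he : Function.Injective e)
    (a : I → F) : wt (Function.extend e a 0) = wt a := by
  unfold wt
  rw [Function.support_extend_zero he, Set.ncard_image_of_injective _ he]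

theorem extend_comp' {I K : Type*} {e : I → K} (he : Function.Injective e)
    (a : I → F) : Function.extend e a 0 ∘ e = a := by
  ext i
  exact he.extend_apply a 0 i

theorem phi_extend {I K : Type*} [Fintype I] [Fintype K] {e : I → K}
    (he : Function.Injective e) (y : K → V) (a : I → F) :
    phi y (Function.extend e a 0) = phi (y ∘ e) a := by
  rw [← phi_comp he y (Function.extend e a 0), extend_comp' he]
  intro κ hκ
  rw [Function.extend_apply']
  · rfl
  · exact hκ

theorem Cov.of_comp {I K : Type*} [Fintype I] [Fintype K] {e : I → K}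
    (he : Function.Injective e) {y : K → V} {t : ℕ} {v : V} (h : Cov F t (y ∘ e) v) :
    Cov F t y v := by
  obtain ⟨a, ha, hv⟩ := h
  exact ⟨Function.extend e a 0, by rw [wt_extend he]; exact ha, by rw [phi_extend he]; exact hv⟩

theorem phi_sum {I J : Type*} [Fintype I] [Fintype J] (x : I → V) (Y : J → V)
    (c : I ⊕ J → F) :
    phi (Sum.elim x Y) c = phi x (c ∘ Sum.inl) + phi Y (c ∘ Sum.inr) := by
  unfold phi
  rw [Fintype.sum_sum_type]
  rfl

theorem wt_sum {I J : Type*} [Finite I] [Finite J] (c : I ⊕ J → F) :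
    wt c = wt (c ∘ Sum.inl) + wt (c ∘ Sum.inr) := by
  unfold wt
  have h : Function.support c = Sum.inl '' Function.support (c ∘ Sum.inl)
      ∪ Sum.inr '' Function.support (c ∘ Sum.inr) := by
    ext κ
    rcases κ with i | j
    · simp
    · simp
  rw [h, Set.ncard_union_eq _ (Set.toFinite _) (Set.toFinite _),
    Set.ncard_image_of_injective _ Sum.inl_injective,
    Set.ncard_image_of_injective _ Sum.inr_injective]
  rw [Set.disjoint_left]
  rintro _ ⟨i, _, rfl⟩ ⟨j, _, h⟩
  cases h

/-- The exceptional event: some structured representation of `p` meets a short dependency. -/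
def Bad {I : Type*} [Fintype I] (F : Type*) [Field F] {V : Type*} [AddCommGroup V] [Module F V]
    {t n : ℕ} (x : I → V) (p : V) (Y : Fin t × Fin n → V) : Prop :=
  ∃ (α : Fin t → Fin n × Fˣ) (i : Fin t) (c : I ⊕ (Fin t × Fin n) → F),
    phi Y (vec (F := F) α) = p ∧ wt c ≤ t ∧ phi (Sum.elim x Y) c = 0 ∧
      c (Sum.inr (i, (α i).1)) ≠ 0

theorem bad_le [Fintype F] [Fintype V] {I : Type*} [Fintype I] {t n : ℕ} (ht : 1 ≤ t)
    (x : I → V) {p : V} (hp : p ≠ 0) :
    ({Y : Fin t × Fin n → V | Bad F x p Y}.ncard : ℝ) * (Nat.card V : ℝ) ^ 2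
      ≤ (Nat.card (Fin t → Fin n × Fˣ) : ℝ) * (t * Nat.card F
        * (1 + (Nat.card I + t * n) * (Nat.card F - 1)) ^ (t - 1))
        * (Nat.card (Fin t × Fin n → V) : ℝ) := by
  classical
  set Ω := Fin t × Fin n → V with hΩ
  set A := Fin t → Fin n × Fˣ with hA
  set K := I ⊕ (Fin t × Fin n) with hK
  have hcV : Nat.card V = Fintype.card V := Nat.card_eq_fintype_card
  have hcΩ : Nat.card Ω = Fintype.card Ω := Nat.card_eq_fintype_card
  set Q : ℝ := (Nat.card V : ℝ) with hQ
  set N : ℝ := (Nat.card Ω : ℝ) with hN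
  have hN0 : 0 ≤ N := Nat.cast_nonneg _
  let Pi' := A × Fin t × F × (Fin (t - 1) → Option (K × Fˣ))
  let cw : Pi' → (K → F) := fun π =>
    Pi.single (Sum.inr (π.2.1, (π.1 π.2.1).1)) π.2.2.1 + ∑ r, el (F := F) (π.2.2.2 r)
  let S : Pi' → Ω → Prop := fun π Y => phi Y (vec (F := F) π.1) = p ∧ wt (cw π) ≤ t ∧
    phi (Sum.elim x Y) (cw π) = 0 ∧ cw π (Sum.inr (π.2.1, (π.1 π.2.1).1)) ≠ 0
  -- each piece is small
  have hS : ∀ π : Pi', Q ^ 2 * ∑ Y : Ω, (if S π Y then (1 : ℝ) else 0) ≤ N := by
    intro π
    rw [sum_ite_eq_ncard]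
    obtain ⟨α, i, b, f⟩ := π
    by_cases hr : ∃ r : F, (cw (α, i, b, f)) ∘ Sum.inr = r • vec α
    · obtain ⟨r, hr⟩ := hr
      have hempty : {Y : Ω | S (α, i, b, f) Y} = ∅ := by
        rw [Set.eq_empty_iff_forall_notMem]
        rintro Y ⟨h1, h2, h3, h4⟩
        have h5 : r ≠ 0 := by
          rintro rfl
          rw [zero_smul] at hr
          exact h4 (congrFun hr (i, (α i).1))
        rw [wt_sum, hr, wt_smul h5, wt_vec] at h2
        have h6 : (cw (α, i, b, f)) ∘ Sum.inl = 0 := wt_eq_zero.1 (by omega)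
        rw [phi_sum, h6, phi_zero_right, zero_add, hr, phi_smul_right, h1] at h3
        rcases smul_eq_zero.1 h3 with h | h
        · exact h5 h
        · exact hp h
      rw [hempty]
      simp only [Set.ncard_empty, Nat.cast_zero, mul_zero]
      exact hN0
    · push Not at hr
      have h1 := card_two (V := V) (vec_ne_zero (F := F) ht α) hr p
        (- phi x ((cw (α, i, b, f)) ∘ Sum.inl))
      have h2 : {Y : Ω | S (α, i, b, f) Y} ⊆ {Y : Ω | phi Y (vec (F := F) α) = p ∧
          phi Y ((cw (α, i, b, f)) ∘ Sum.inr) = - phi x ((cw (α, i, b, f)) ∘ Sum.inl)} := by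
        rintro Y ⟨h3, _, h4, _⟩
        refine ⟨h3, ?_⟩
        rw [phi_sum] at h4
        exact eq_neg_of_add_eq_zero_right h4
      have h3 := Set.ncard_le_ncard h2 (Set.toFinite _)
      have h4 : {Y : Ω | S (α, i, b, f) Y}.ncard * Fintype.card V ^ 2 ≤ Fintype.card Ω := by
        rw [← h1]
        exact Nat.mul_le_mul_right _ h3
      rw [hQ, hN, hcV, hcΩ, mul_comm]
      exact_mod_cast h4
  -- the union
  have hU : ({Y : Ω | Bad F x p Y}.ncard : ℝ) ≤ ∑ π : Pi', ∑ Y : Ω,
      (if S π Y then (1 : ℝ) else 0) := by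
    rw [← sum_ite_eq_ncard, Finset.sum_comm]
    refine Finset.sum_le_sum fun Y _ => ?_
    by_cases hY : Bad F x p Y
    · rw [if_pos hY]
      obtain ⟨α, i, c, h1, h2, h3, h4⟩ := hY
      set κ : K := Sum.inr (i, (α i).1) with hκ
      set c' : K → F := Function.update c κ 0 with hc'
      have hsupp : Function.support c' = Function.support c \ {κ} := by
        ext l
        by_cases hl : l = κ
        · simp [hc', hl]
        · simp [hc', hl]
      have hwt : wt c' ≤ t - 1 := by
        unfold wt at h2 ⊢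
        rw [hsupp, Set.ncard_sdiff_singleton_of_mem h4]
        omega
      obtain ⟨f, hf⟩ := sumrep (t - 1) c' hwt
      have hcw : cw (α, i, c κ, f) = c := by
        show Pi.single κ (c κ) + ∑ r, el (F := F) (f r) = c
        rw [← hf]
        ext l
        by_cases hl : l = κ
        · simp [hc', hl]
        · simp [hc', hl]
      have hmem : S (α, i, c κ, f) Y := by
        refine ⟨h1, ?_, ?_, ?_⟩
        · rw [hcw]; exact h2
        · rw [hcw]; exact h3
        · rw [hcw]; exact h4
      have h5 := Finset.single_le_sum (f := fun π : Pi' => if S π Y then (1 : ℝ) else 0)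
        (fun π _ => by positivity) (Finset.mem_univ (α, i, c κ, f))
      simp only [if_pos hmem] at h5
      exact h5
    · rw [if_neg hY]
      exact Finset.sum_nonneg fun π _ => by positivity
  have hcard : (Fintype.card Pi' : ℝ) ≤ (Nat.card A : ℝ) * (t * Nat.card F
        * (1 + (Nat.card I + t * n) * (Nat.card F - 1)) ^ (t - 1)) := by
    have h1 : Fintype.card Pi' = Fintype.card A * (t * (Fintype.card F
        * ((Fintype.card I + t * n) * (Fintype.card F - 1) + 1) ^ (t - 1))) := by
      simp only [Pi', K, Fintype.card_prod, Fintype.card_fin, Fintype.card_fun,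
        Fintype.card_option, Fintype.card_units, Fintype.card_sum]
    have hq : 1 ≤ Fintype.card F := Fintype.card_pos
    rw [h1, Nat.card_eq_fintype_card, Nat.card_eq_fintype_card (α := F),
      Nat.card_eq_fintype_card (α := I)]
    push_cast [Nat.cast_sub hq]
    rw [add_comm (1 : ℝ)]
    apply le_of_eq
    ring
  have hfin : Q ^ 2 * ∑ π : Pi', ∑ Y : Ω, (if S π Y then (1 : ℝ) else 0)
      ≤ (Fintype.card Pi' : ℝ) * N := by
    rw [Finset.mul_sum]
    refine (Finset.sum_le_sum fun π _ => hS π).trans ?_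
    rw [Finset.sum_const, Finset.card_univ, nsmul_eq_mul]
  have hQ0 : 0 ≤ Q ^ 2 := sq_nonneg _
  calc ({Y : Ω | Bad F x p Y}.ncard : ℝ) * Q ^ 2
      ≤ (∑ π : Pi', ∑ Y : Ω, (if S π Y then (1 : ℝ) else 0)) * Q ^ 2 :=
        mul_le_mul_of_nonneg_right hU hQ0
    _ ≤ (Fintype.card Pi' : ℝ) * N := by rw [mul_comm]; exact hfin
    _ ≤ _ := mul_le_mul_of_nonneg_right hcard hN0

end families

end Pool.Agent.Helper38.CCG
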