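import Pool.Agent.Helper38.CCG.Batch

/-!
# One batch reduces the number of uncovered vectors
-/

namespace Pool.Agent.Helper38.CCG

open Module

variable {F V : Type} [Field F] [AddCommGroup V] [Module F V]

/-- The index `j` of the new family takes part in no short dependency. -/
def Good {I J : Type} [Fintype I] [Fintype J] (F : Type) [Field F] {V : Type} [AddCommGroup V]
    [Module F V] (t : ℕ) (x : I → V) (Y : J → V) (j : J) : Prop :=
  ∀ c : I ⊕ J → F, wt c ≤ t → phi (Sum.elim x Y) c = 0 → c (Sum.inr j) = 0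

/-- The pruned family. -/
def prune {I J : Type} [Fintype I] [Fintype J] (F : Type) [Field F] {V : Type} [AddCommGroup V]
    [Module F V] (t : ℕ) (x : I → V) (Y : J → V) : I ⊕ {j : J // Good F t x Y j} → V :=
  Sum.elim x fun j => Y j.1

/-- The inclusion of the pruned index set. -/
def incl {I J : Type} [Fintype I] [Fintype J] (F : Type) [Field F] {V : Type} [AddCommGroup V]
    [Module F V] (t : ℕ) (x : I → V) (Y : J → V) : I ⊕ {j : J // Good F t x Y j} → I ⊕ J :=
  Sum.map id Subtype.val

theorem incl_injective {I J : Type} [Fintype I] [Fintype J] (t : ℕ) (x : I → V) (Y : J → V) :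
    Function.Injective (incl F t x Y) :=
  Sum.map_injective.2 ⟨Function.injective_id, Subtype.val_injective⟩

theorem prune_eq {I J : Type} [Fintype I] [Fintype J] (t : ℕ) (x : I → V) (Y : J → V) :
    prune F t x Y = Sum.elim x Y ∘ incl F t x Y := by
  ext κ
  rcases κ with i | j
  · rfl
  · rfl

theorem ind_prune {I J : Type} [Fintype I] [Fintype J] {t : ℕ} {x : I → V} (hx : Ind F t x)
    (Y : J → V) [Fintype (I ⊕ {j : J // Good F t x Y j})] : Ind F t (prune F t x Y) := by
  intro a ha hwt hphi
  have he := incl_injective (F := F) t x Y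
  set c : I ⊕ J → F := Function.extend (incl F t x Y) a 0 with hc
  have h1 : wt c ≤ t := by rw [hc, wt_extend he]; exact hwt
  have h2 : phi (Sum.elim x Y) c = 0 := by
    rw [hc, phi_extend he, ← prune_eq]
    exact hphi
  have h3 : c ∘ Sum.inr = 0 := by
    ext j
    by_cases hj : Good F t x Y j
    · exact hj c h1 h2
    · show c (Sum.inr j) = 0
      rw [hc, Function.extend_apply']
      · rfl
      · rintro ⟨κ, hκ⟩
        rcases κ with i | j'
        · cases hκ
        · have : j'.1 = j := Sum.inr_injective hκ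
          exact hj (this ▸ j'.2)
  have h4 : phi x (c ∘ Sum.inl) = 0 := by
    rw [phi_sum, h3, phi_zero_right, add_zero] at h2
    exact h2
  have h5 : c ∘ Sum.inl = 0 := by
    by_contra hne
    refine hx _ hne ?_ h4
    rw [wt_sum] at h1
    omega
  apply ha
  have h6 : c = 0 := by
    ext κ
    rcases κ with i | j
    · exact congrFun h5 i
    · exact congrFun h3 j
  have h7 := extend_comp' he a
  rw [← h7, ← hc, h6]
  rfl

theorem cov_prune {I : Type} [Fintype I] {t n : ℕ} {x : I → V}
    (Y : Fin t × Fin n → V) [Fintype (I ⊕ {j : Fin t × Fin n // Good F t x Y j})] {p : V}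
    (h : ¬ Cov F t (prune F t x Y) p) :
    ¬ Cov F t x p ∧ ((∀ α : Fin t → Fin n × Fˣ, phi Y (vec (F := F) α) ≠ p) ∨ Bad F x p Y) := by
  constructor
  · intro hx
    apply h
    have he : Function.Injective (Sum.inl : I → I ⊕ {j : Fin t × Fin n // Good F t x Y j}) :=
      Sum.inl_injective
    exact Cov.of_comp (y := prune F t x Y) he hx
  · by_contra hcon
    push Not at hcon
    obtain ⟨⟨α, hα⟩, hbad⟩ := hcon
    apply h
    have he := incl_injective (F := F) t x Y
    set c : I ⊕ (Fin t × Fin n) → F := Sum.elim 0 (vec α) with hc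
    have hgood : ∀ i : Fin t, Good F t x Y (i, (α i).1) := by
      intro i b hb hb0
      by_contra hne
      exact hbad ⟨α, i, b, hα, hb, hb0, hne⟩
    refine ⟨c ∘ incl F t x Y, ?_, ?_⟩
    · refine (wt_comp_le he c).trans ?_
      rw [wt_sum, hc, Sum.elim_comp_inl, Sum.elim_comp_inr, wt_zero, wt_vec, zero_add]
    · rw [prune_eq, phi_comp he, phi_sum, hc, Sum.elim_comp_inl, Sum.elim_comp_inr,
        phi_zero_right, zero_add, hα]
      intro κ hκ
      rcases κ with i | j
      · rfl
      · by_contra hne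
        have hj : j ∈ Function.support (vec (F := F) α) := hne
        rw [vec_support] at hj
        obtain ⟨i, rfl⟩ := hj
        exact hκ ⟨Sum.inr ⟨(i, (α i).1), hgood i⟩, rfl⟩

theorem batch [Fintype F] [Fintype V] {I : Type} [Fintype I] {t : ℕ} (n : ℕ) (ht : 1 ≤ t)
    (x : I → V) (hx : Ind F t x) (hA : 0 < (Nat.card (Fin t → Fin n × Fˣ) : ℝ)) :
    ∃ (I' : Type) (_ : Fintype I') (x' : I' → V), Ind F t x' ∧
      Nat.card I' ≤ Nat.card I + t * n ∧
      ({v : V | ¬ Cov F t x' v}.ncard : ℝ) ≤ ({v : V | ¬ Cov F t x v}.ncard : ℝ) *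
        ((Nat.card V : ℝ) / (Nat.card (Fin t → Fin n × Fˣ) : ℝ)
          + (Nat.card (Fin t → Fin n × Fˣ) : ℝ) * (t * Nat.card F
            * (1 + (Nat.card I + t * n) * (Nat.card F - 1)) ^ (t - 1)) / (Nat.card V : ℝ) ^ 2) := by
  classical
  set Ω := Fin t × Fin n → V with hΩ
  set A : ℝ := (Nat.card (Fin t → Fin n × Fˣ) : ℝ) with hAdef
  set Q : ℝ := (Nat.card V : ℝ) with hQ
  set R : ℝ := (t * Nat.card F * (1 + (Nat.card I + t * n) * (Nat.card F - 1)) ^ (t - 1) : ℝ)
    with hR
  set N : ℝ := (Nat.card Ω : ℝ) with hN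
  have hQ0 : 0 < Q := by
    rw [hQ]
    exact_mod_cast Nat.card_pos
  have hN0 : 0 < N := by
    rw [hN]
    exact_mod_cast Nat.card_pos
  have hNF : N = Fintype.card Ω := by rw [hN, Nat.card_eq_fintype_card]
  set θ : ℝ := Q / A + A * R / Q ^ 2 with hθ
  set P : V → Prop := fun v => ¬ Cov F t x v with hP
  -- bound for one vector
  have hone : ∀ p : V, P p → ∑ Y : Ω, ((if (∀ α : Fin t → Fin n × Fˣ,
      phi Y (vec (F := F) α) ≠ p) then (1 : ℝ) else 0) + (if Bad F x p Y then 1 else 0))
      ≤ θ * N := by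
    intro p hp
    have hp0 : p ≠ 0 := by
      rintro rfl
      exact hp ⟨0, by rw [wt_zero]; omega, phi_zero_right x⟩
    rw [Finset.sum_add_distrib, sum_ite_eq_ncard, sum_ite_eq_ncard]
    have h1 := moment (F := F) (V := V) (n := n) ht hp0
    have h2 := bad_le (F := F) (n := n) ht x hp0
    have h3 : ({Y : Ω | ∀ α : Fin t → Fin n × Fˣ, phi Y (vec (F := F) α) ≠ p}.ncard : ℝ)
        ≤ Q / A * N := by
      rw [div_mul_eq_mul_div, le_div_iff₀ hA]
      exact h1
    have h4 : ({Y : Ω | Bad F x p Y}.ncard : ℝ) ≤ A * R / Q ^ 2 * N := by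
      rw [div_mul_eq_mul_div, le_div_iff₀ (by positivity)]
      exact h2
    rw [hθ]
    linarith
  -- pointwise bound
  have hpt : ∀ Y : Ω, ({v : V | ¬ Cov F t (prune F t x Y) v}.ncard : ℝ)
      ≤ ∑ p : V, (if P p then ((if (∀ α : Fin t → Fin n × Fˣ,
        phi Y (vec (F := F) α) ≠ p) then (1 : ℝ) else 0) + (if Bad F x p Y then 1 else 0))
        else 0) := by
    intro Y
    rw [← sum_ite_eq_ncard]
    refine Finset.sum_le_sum fun p _ => ?_
    by_cases hc : Cov F t (prune F t x Y) p
    · rw [if_neg (not_not.2 hc)]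
      positivity
    · rw [if_pos hc]
      obtain ⟨h1, h2⟩ := cov_prune Y hc
      rw [if_pos h1]
      rcases h2 with h2 | h2
      · rw [if_pos h2]
        have : (0 : ℝ) ≤ if Bad F x p Y then 1 else 0 := by positivity
        linarith
      · rw [if_pos h2]
        have : (0 : ℝ) ≤ if (∀ α : Fin t → Fin n × Fˣ,
          phi Y (vec (F := F) α) ≠ p) then (1 : ℝ) else 0 := by positivity
        linarith
  -- average
  have havg : ∑ Y : Ω, ({v : V | ¬ Cov F t (prune F t x Y) v}.ncard : ℝ)
      ≤ ∑ _Y : Ω, ({v : V | ¬ Cov F t x v}.ncard : ℝ) * θ := by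
    refine (Finset.sum_le_sum fun Y _ => hpt Y).trans ?_
    rw [Finset.sum_comm, Finset.sum_const, Finset.card_univ, nsmul_eq_mul, ← hNF,
      ← sum_ite_eq_ncard, Finset.sum_mul, Finset.mul_sum]
    refine Finset.sum_le_sum fun p _ => ?_
    by_cases hp : P p
    · simp only [if_pos hp]
      have h1 := hone p hp
      rw [if_pos hp]
      linarith
    · simp only [if_neg hp]
      rw [if_neg hp]
      simp
  obtain ⟨Y, _, hY⟩ := Finset.exists_le_of_sum_le (s := (Finset.univ : Finset Ω))
    (by
      have : 0 < Fintype.card Ω := by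
        have := hNF ▸ hN0
        exact_mod_cast this
      exact Finset.card_pos.1 (by rw [Finset.card_univ]; exact this)) havg
  refine ⟨I ⊕ {j : Fin t × Fin n // Good F t x Y j}, inferInstance, prune F t x Y,
    ind_prune hx Y, ?_, hY⟩
  rw [Nat.card_sum]
  have h1 : Nat.card {j : Fin t × Fin n // Good F t x Y j} ≤ t * n := by
    refine (Nat.card_le_card_of_injective _ Subtype.val_injective).trans ?_
    simp
  omega

end Pool.Agent.Helper38.CCG
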