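import Pool.Agent.Helper38.CCG.Second
import Pool.Agent.Helper38.CCG.Step

/-!
# From a covering family to an isolated code
-/

namespace Pool.Agent.Helper38.CCG

open Module

variable {F : Type} [Field F]

/-- The code generated by the matrix whose columns are the members of the family. -/
noncomputable def rowMap {k m : ℕ} (y : Fin m → (Fin k → F)) :
    Module.Dual F (Fin k → F) →ₗ[F] (Fin m → F) :=
  LinearMap.pi fun i => Module.Dual.eval F (Fin k → F) (y i)

theorem rowMap_apply {k m : ℕ} (y : Fin m → (Fin k → F)) (f : Module.Dual F (Fin k → F))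
    (i : Fin m) : rowMap y f i = f (y i) := rfl

theorem mem_perp_row {k m : ℕ} (y : Fin m → (Fin k → F)) (w : Fin m → F) :
    w ∈ perp (LinearMap.range (rowMap y)) ↔ phi y w = 0 := by
  rw [mem_perp]
  have h1 : ∀ f : Module.Dual F (Fin k → F), ∑ i, rowMap y f i * w i = f (phi y w) := by
    intro f
    unfold phi
    rw [map_sum]
    refine Finset.sum_congr rfl fun i _ => ?_
    rw [rowMap_apply, map_smul, smul_eq_mul, mul_comm]
  constructor
  · intro h
    rw [← Module.forall_dual_apply_eq_zero_iff F]
    intro f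
    rw [← h1]
    exact h _ ⟨f, rfl⟩
  · rintro h _ ⟨f, rfl⟩
    rw [h1, h, map_zero]

theorem isolated_of_family {k t m : ℕ} (htk : t < k) (y : Fin m → (Fin k → F))
    (hy : Ind F t y) (hcov : ∀ v, Cov F t y v) :
    k < m ∧ ∃ C : Submodule F (Fin m → F), Isolated t k C := by
  set C := LinearMap.range (rowMap y) with hC
  have hinj : Function.Injective (rowMap y) := by
    rw [← LinearMap.ker_eq_bot, LinearMap.ker_eq_bot']
    intro f hf
    ext1 i
    obtain ⟨a, _, ha⟩ := hcov (LinearMap.single F (fun _ : Fin k => F) i 1)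
    ext
    simp only [LinearMap.coe_comp, Function.comp_apply, LinearMap.zero_apply]
    rw [← ha]
    unfold phi
    rw [map_sum]
    refine Finset.sum_eq_zero fun j _ => ?_
    rw [map_smul, ← rowMap_apply, hf]
    simp
  have hfr : finrank F C = k := by
    rw [hC, LinearMap.finrank_range_of_inj hinj, Subspace.dual_finrank_eq, finrank_fin_fun]
  have hd : DCode (t + 1) (perp C) := by
    intro u hu hu0
    by_contra hlt
    exact hy u hu0 (by omega) ((mem_perp_row y u).1 hu)
  have hcode : IsCode t k C := isCode_iff.2 ⟨hfr, hd⟩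
  have hkm : k ≤ m := by
    rw [← hfr]
    exact finrank_le_n C
  have hlt : k < m := by
    rcases hkm.eq_or_lt with h | h
    swap
    · exact h
    exfalso
    have h1 : perp C = ⊥ := Submodule.finrank_eq_zero.1 (by rw [finrank_perp, hfr]; omega)
    obtain ⟨b, hb, hbphi⟩ := hcov (phi y (fun _ => (1 : F)))
    have h2 : (fun _ => (1 : F)) - b ∈ perp C := by
      rw [hC, mem_perp_row]
      have h3 := phi_add_right y ((fun _ => (1 : F)) - b) b
      rw [sub_add_cancel, hbphi] at h3
      exact (right_eq_add.1 h3)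
    rw [h1, Submodule.mem_bot, sub_eq_zero] at h2
    rw [← h2] at hb
    have h4 : wt (fun _ : Fin m => (1 : F)) = m := by
      unfold wt
      have : Function.support (fun _ : Fin m => (1 : F)) = Set.univ := by
        ext i
        simp
      rw [this, Set.ncard_univ]
      simp
    omega
  refine ⟨hlt, C, hcode, fun D hDC hD => ?_⟩
  obtain ⟨hDr, hDd⟩ := isCode_iff.1 hD
  have hpp : perp C ≤ perp D := perp_anti hDC.le
  have hne : ¬ perp D ≤ perp C := by
    intro h
    have := Submodule.finrank_mono h
    rw [finrank_perp, finrank_perp, hDr, hfr] at this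
    omega
  obtain ⟨u, hu, huC⟩ := Set.not_subset.1 hne
  have hphi : phi y u ≠ 0 := fun h => huC ((mem_perp_row y u).2 h)
  obtain ⟨b, hb, hbphi⟩ := hcov (phi y u)
  have h1 : u - b ∈ perp C := by
    rw [hC, mem_perp_row]
    have h3 := phi_add_right y (u - b) b
    rw [sub_add_cancel, hbphi] at h3
    exact (right_eq_add.1 h3)
  have h2 : b ∈ perp D := by
    have := (perp D).sub_mem hu (hpp h1)
    rwa [sub_sub_cancel] at this
  have h3 : b ≠ 0 := by
    rintro rfl
    rw [phi_zero_right] at hbphi
    exact hphi hbphi.symm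
  have := hDd b h2 h3
  omega

/-- Transfer to a family indexed by `Fin`. -/
theorem exists_fin_family {k t : ℕ} {I : Type} [Fintype I] (x : I → (Fin k → F))
    (hx : Ind F t x) (hcov : ∀ v, Cov F t x v) :
    ∃ y : Fin (Nat.card I) → (Fin k → F), Ind F t y ∧ ∀ v, Cov F t y v := by
  have hcard : Nat.card I = Fintype.card I := Nat.card_eq_fintype_card
  let e : Fin (Nat.card I) ≃ I := (Fintype.equivFinOfCardEq hcard.symm).symm
  have hrange : ∀ κ, κ ∉ Set.range e → False := fun κ h => h (e.surjective κ)
  refine ⟨x ∘ e, ?_, ?_⟩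
  · intro a ha hwt
    have h1 : a = (a ∘ e.symm) ∘ e := by
      ext i
      simp
    rw [h1, phi_comp e.injective x _ fun κ hκ => (hrange κ hκ).elim]
    apply hx
    · intro h
      apply ha
      rw [h1, h]
      rfl
    · exact (wt_comp_le e.symm.injective a).trans hwt
  · intro v
    obtain ⟨a, ha, hv⟩ := hcov v
    exact ⟨a ∘ e, (wt_comp_le e.injective a).trans ha,
      by rw [phi_comp e.injective x _ fun κ hκ => (hrange κ hκ).elim]; exact hv⟩

end Pool.Agent.Helper38.CCG
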