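import Pool.Agent.Helper38.CCG.Defs

/-!
# Connectivity in the dual picture
-/

namespace Pool.Agent.Helper38.CCG

open Module

section weight

variable {ι F : Type*} [Finite ι] [Field F]

omit [Finite ι] in
theorem wt_zero : wt (0 : ι → F) = 0 := by simp [wt]

theorem wt_add_le (x y : ι → F) : wt (x + y) ≤ wt x + wt y := by
  unfold wt
  refine (Set.ncard_le_ncard (Function.support_add x y) (Set.toFinite _)).trans ?_
  exact Set.ncard_union_le _ _

omit [Finite ι] in
theorem wt_smul {a : F} (ha : a ≠ 0) (x : ι → F) : wt (a • x) = wt x := by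
  unfold wt
  congr 1
  ext i
  simp [ha]

theorem wt_eq_zero {x : ι → F} : wt x = 0 ↔ x = 0 := by
  unfold wt
  rw [Set.ncard_eq_zero (Set.toFinite _), Function.support_eq_empty_iff]

theorem wt_cons {m : ℕ} (a : F) (x : Fin m → F) :
    wt (Fin.cons a x : Fin (m + 1) → F) = wt (Fin.cons a (0 : Fin m → F) : Fin (m + 1) → F)
      + wt x := by
  unfold wt
  have h1 : Function.support (Fin.cons a x : Fin (m + 1) → F)
      = Function.support (Fin.cons a (0 : Fin m → F) : Fin (m + 1) → F)
        ∪ Fin.succ '' Function.support x := by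
    ext i
    refine Fin.cases ?_ (fun i => ?_) i
    · simp
    · simp
  rw [h1, Set.ncard_union_eq _ (Set.toFinite _) (Set.toFinite _),
    Set.ncard_image_of_injective _ (Fin.succ_injective m)]
  rw [Set.disjoint_left]
  intro i
  refine Fin.cases ?_ (fun i => ?_) i
  · simp
  · simp

theorem wt_cons_zero {m : ℕ} (x : Fin m → F) :
    wt (Fin.cons 0 x : Fin (m + 1) → F) = wt x := by
  rw [wt_cons]
  have : (Fin.cons 0 (0 : Fin m → F) : Fin (m + 1) → F) = 0 := by
    ext i
    refine Fin.cases ?_ (fun i => ?_) i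
    · simp
    · simp
  rw [this, wt_zero, zero_add]

theorem wt_cons_ne_zero {m : ℕ} {a : F} (ha : a ≠ 0) (x : Fin m → F) :
    wt (Fin.cons a x : Fin (m + 1) → F) = 1 + wt x := by
  rw [wt_cons]
  congr 1
  unfold wt
  have : Function.support (Fin.cons a (0 : Fin m → F) : Fin (m + 1) → F) = {0} := by
    ext i
    refine Fin.cases ?_ (fun i => ?_) i
    · simp [ha]
    · simp
  rw [this, Set.ncard_singleton]

end weight

/-- A code all of whose nonzero words have weight at least `d`. -/
def DCode {ι F : Type*} [Field F] (d : ℕ) (U : Submodule F (ι → F)) : Prop :=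
  ∀ u ∈ U, u ≠ 0 → d ≤ wt u

/-- One step in the dual graph. -/
def Step {ι F : Type*} [Field F] (d j : ℕ) (U U' : Submodule F (ι → F)) : Prop :=
  finrank F U = j ∧ finrank F U' = j ∧
    ∃ M : Submodule F (ι → F), DCode d M ∧ finrank F M = j + 1 ∧ U ≤ M ∧ U' ≤ M

theorem Step.symm {ι F : Type*} [Field F] {d j : ℕ} {U U' : Submodule F (ι → F)}
    (h : Step d j U U') : Step d j U' U := by
  obtain ⟨h1, h2, M, h3, h4, h5, h6⟩ := h
  exact ⟨h2, h1, M, h3, h4, h6, h5⟩

/-- Being joined by a path in the dual graph. -/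
def Conn {ι F : Type*} [Field F] (d j : ℕ) :
    Submodule F (ι → F) → Submodule F (ι → F) → Prop :=
  Relation.ReflTransGen (Step d j)

theorem Conn.symm {ι F : Type*} [Field F] {d j : ℕ} {U U' : Submodule F (ι → F)}
    (h : Conn d j U U') : Conn d j U' U := by
  unfold Conn at *
  induction h with
  | refl => exact Relation.ReflTransGen.refl
  | tail _ h2 ih => exact Relation.ReflTransGen.head h2.symm ih

/-- Adding a zero coordinate. -/
def cz {F : Type*} [Field F] (m : ℕ) : (Fin m → F) →ₗ[F] (Fin (m + 1) → F) where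
  toFun x := Fin.cons 0 x
  map_add' x y := by
    ext i
    refine Fin.cases ?_ (fun i => ?_) i
    · simp
    · simp
  map_smul' a x := by
    ext i
    refine Fin.cases ?_ (fun i => ?_) i
    · simp
    · simp

variable {F : Type*} [Field F]

theorem cz_apply {m : ℕ} (x : Fin m → F) : cz m x = Fin.cons 0 x := rfl

theorem cz_injective (m : ℕ) : Function.Injective (cz (F := F) m) := by
  intro x y h
  rw [cz_apply, cz_apply] at h
  exact (Fin.cons_injective2 h).2

theorem finrank_map_cz {m : ℕ} (S : Submodule F (Fin m → F)) :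
    finrank F (S.map (cz m)) = finrank F S :=
  (LinearEquiv.finrank_eq (Submodule.equivMapOfInjective _ (cz_injective m) S)).symm

theorem DCode.map_cz {m d : ℕ} {S : Submodule F (Fin m → F)} (h : DCode d S) :
    DCode d (S.map (cz m)) := by
  rintro _ ⟨s, hs, rfl⟩ hne
  rw [cz_apply, wt_cons_zero]
  refine h s hs ?_
  rintro rfl
  exact hne (map_zero _)

theorem exists_le_finrank {V : Type*} [AddCommGroup V] [Module F V] [FiniteDimensional F V]
    (W : Submodule F V) {r : ℕ} (hr : r ≤ finrank F W) :
    ∃ W' : Submodule F V, W' ≤ W ∧ finrank F W' = r := by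
  induction hk : finrank F W - r generalizing W with
  | zero => exact ⟨W, le_rfl, by omega⟩
  | succ k ih =>
    have hpos : 0 < finrank F W := by omega
    have hne : W ≠ ⊥ := by
      rintro rfl
      simp at hpos
    obtain ⟨w, hw, hw0⟩ := Submodule.exists_mem_ne_zero_of_ne_bot hne
    -- a hyperplane of `W`
    let w' : W := ⟨w, hw⟩
    have hw'0 : w' ≠ 0 := fun h => hw0 (congrArg Subtype.val h)
    obtain ⟨C, hC⟩ := Submodule.exists_isCompl (Submodule.span F {w'})
    have hfr : finrank F (Submodule.span F {w'}) = 1 := finrank_span_singleton hw'0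
    have hsum := Submodule.finrank_add_eq_of_isCompl hC
    have hCr : finrank F (C.map W.subtype) = finrank F C :=
      (LinearEquiv.finrank_eq (Submodule.equivMapOfInjective _ W.subtype_injective C)).symm
    obtain ⟨W', hW', hfr'⟩ := ih (C.map W.subtype) (by omega) (by omega)
    exact ⟨W', hW'.trans (Submodule.map_subtype_le W C), hfr'⟩

/-- The key counting step: a coset of `S` inside a given coset of `S ⊔ S'` which contains no
word of weight less than `t`. -/
theorem exists_shift [Fintype F] {m t : ℕ} (S T : Submodule F (Fin m → F)) (hST : S ≤ T)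
    (p : Fin m → F) (hpT : p ∈ T) (hp : p ∉ S) (w0 : Fin m → F)
    (hcard : {x : Fin m → F | wt x < t ∧ x - w0 ∈ T}.ncard < Fintype.card F) :
    ∃ a : F, ∀ s ∈ S, t ≤ wt (w0 + a • p + s) := by
  by_contra hcon
  push Not at hcon
  choose s hs hlt using hcon
  have hinj : Function.Injective fun a : F => w0 + a • p + s a := by
    intro a b hab
    by_contra hne
    have h1 : (a - b) • p = s b - s a := by
      have h2 : w0 + a • p + s a = w0 + b • p + s b := hab
      rw [sub_smul]
      have h3 : a • p + s a = b • p + s b := by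
        have := congrArg (fun v => v - w0) h2
        simpa [add_assoc] using this
      rw [sub_eq_sub_iff_add_eq_add, h3, add_comm]
    have h4 : (a - b) • p ∈ S := by
      rw [h1]
      exact S.sub_mem (hs b) (hs a)
    exact hp ((S.smul_mem_iff (sub_ne_zero.2 hne)).1 h4)
  have hsub : Set.range (fun a : F => w0 + a • p + s a)
      ⊆ {x : Fin m → F | wt x < t ∧ x - w0 ∈ T} := by
    rintro _ ⟨a, rfl⟩
    refine ⟨hlt a, ?_⟩
    have : w0 + a • p + s a - w0 = a • p + s a := by abel
    rw [this]
    exact T.add_mem (T.smul_mem a hpT) (hST (hs a))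
  have h5 := Set.ncard_le_ncard hsub (Set.toFinite _)
  rw [← Set.image_univ, Set.ncard_image_of_injective _ hinj, Set.ncard_univ,
    Nat.card_eq_fintype_card] at h5
  omega

/-- Two short codes with a common hyperplane are connected. -/
theorem conn_of_common [Fintype F] {m k j t : ℕ} (hm : m = k + j)
    (hB : {x : Fin m → F | wt x < t}.ncard < Fintype.card F ^ (k - 1))
    (R S S' : Submodule F (Fin m → F)) (hR : finrank F R = j) (hS : finrank F S = j + 1)
    (hS' : finrank F S' = j + 1) (hRS : R ≤ S) (hRS' : R ≤ S') (dS : DCode (t + 1) S)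
    (dS' : DCode (t + 1) S') :
    Conn (t + 1) (j + 1) (S.map (cz m)) (S'.map (cz m)) := by
  by_cases hSS : S = S'
  · rw [hSS]
    exact Relation.ReflTransGen.refl
  set T := S ⊔ S' with hT
  -- dimensions
  have hinf : finrank F (S ⊓ S' : Submodule F (Fin m → F)) = j := by
    apply le_antisymm
    · have hlt : S ⊓ S' < S := by
        refine lt_of_le_of_ne inf_le_left fun h => hSS ?_
        have h1 : S ≤ S' := inf_eq_left.1 h
        exact Submodule.eq_of_le_of_finrank_eq h1 (by rw [hS, hS'])
      have := Submodule.finrank_lt_finrank_of_lt hlt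
      omega
    · rw [← hR]
      exact Submodule.finrank_mono (le_inf hRS hRS')
  have hTr : finrank F T = j + 2 := by
    have := Submodule.finrank_sup_add_finrank_inf_eq S S'
    rw [hinf, hS, hS'] at this
    rw [hT]
    omega
  have hq := Submodule.finrank_quotient_add_finrank T
  rw [hTr, finrank_fin_fun] at hq
  have hk2 : k - 1 = finrank F ((Fin m → F) ⧸ T) + 1 := by omega
  -- a coset of `T` with few words of small weight
  classical
  have : Fintype ((Fin m → F) ⧸ T) := Fintype.ofFinite _
  have hcardQ : Fintype.card ((Fin m → F) ⧸ T)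
      = Fintype.card F ^ (finrank F ((Fin m → F) ⧸ T)) := Module.card_eq_pow_finrank
  obtain ⟨θ, hθ⟩ : ∃ θ : (Fin m → F) ⧸ T,
      {x : Fin m → F | wt x < t ∧ T.mkQ x = θ}.ncard < Fintype.card F := by
    have hlt : (Finset.univ.filter fun x : Fin m → F => wt x < t).card
        < (Finset.univ : Finset ((Fin m → F) ⧸ T)).card * Fintype.card F := by
      rw [Finset.card_univ, hcardQ, ← pow_succ, ← hk2]
      refine lt_of_eq_of_lt ?_ hB
      rw [Set.ncard_eq_toFinset_card']
      congr 1
      ext x
      simp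
    obtain ⟨θ, _, hθ⟩ := Finset.exists_card_fiber_lt_of_card_lt_mul
      (f := fun x => T.mkQ x) hlt
    refine ⟨θ, lt_of_eq_of_lt ?_ hθ⟩
    rw [Set.ncard_eq_toFinset_card']
    congr 1
    ext x
    simp only [Set.mem_toFinset, Set.mem_ofPred_eq, Finset.mem_filter, Finset.mem_univ, true_and]
  obtain ⟨w0, rfl⟩ := T.mkQ_surjective θ
  have hθ' : {x : Fin m → F | wt x < t ∧ x - w0 ∈ T}.ncard < Fintype.card F := by
    refine lt_of_eq_of_lt ?_ hθ
    congr 1
    ext x
    simp only [Set.mem_ofPred_eq, Submodule.mkQ_apply, Submodule.Quotient.eq]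
  -- directions
  obtain ⟨p, hpS, hpS'⟩ : ∃ p ∈ S, p ∉ S' := by
    by_contra hcon
    push Not at hcon
    exact hSS (Submodule.eq_of_le_of_finrank_eq hcon (by rw [hS, hS']))
  obtain ⟨p', hp'S', hp'S⟩ : ∃ p ∈ S', p ∉ S := by
    by_contra hcon
    push Not at hcon
    exact hSS (Submodule.eq_of_le_of_finrank_eq hcon (by rw [hS, hS'])).symm
  obtain ⟨a, ha⟩ := exists_shift S T le_sup_left p' (le_sup_right (a := S) hp'S') hp'S w0 hθ'
  obtain ⟨b, hb⟩ := exists_shift S' T le_sup_right p (le_sup_left (b := S') hpS) hpS' w0 hθ'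
  set w : Fin m → F := w0 + a • p' + b • p with hw
  have hwS : ∀ s ∈ S, t ≤ wt (w + s) := by
    intro s hs
    have := ha (b • p + s) (S.add_mem (S.smul_mem b hpS) hs)
    rw [hw, add_assoc (w0 + a • p')]
    exact this
  have hwS' : ∀ s ∈ S', t ≤ wt (w + s) := by
    intro s hs
    have := hb (a • p' + s) (S'.add_mem (S'.smul_mem a hp'S') hs)
    rw [hw]
    have he : w0 + a • p' + b • p + s = w0 + b • p + (a • p' + s) := by abel
    rw [he]
    exact this
  -- the new word
  set v : Fin (m + 1) → F := Fin.cons 1 w with hv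
  have hvS : ∀ X : Submodule F (Fin m → F), v ∉ X.map (cz m) := by
    rintro X ⟨x, _, hx⟩
    have := congrFun hx 0
    simp [cz_apply, hv] at this
  have hdc : ∀ X : Submodule F (Fin m → F), DCode (t + 1) X → (∀ s ∈ X, t ≤ wt (w + s)) →
      DCode (t + 1) (X.map (cz m) ⊔ Submodule.span F {v}) := by
    intro X dX hX u hu hu0
    obtain ⟨y, hy, z, hz, rfl⟩ := Submodule.mem_sup.1 hu
    obtain ⟨c, rfl⟩ := Submodule.mem_span_singleton.1 hz
    obtain ⟨x, hx, rfl⟩ := hy
    by_cases hc : c = 0
    · subst hc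
      rw [zero_smul, add_zero] at hu0 ⊢
      exact dX.map_cz _ ⟨x, hx, rfl⟩ hu0
    · have he : cz m x + c • v = c • (Fin.cons 1 (w + c⁻¹ • x) : Fin (m + 1) → F) := by
        ext i
        refine Fin.cases ?_ (fun i => ?_) i
        · simp [cz_apply, hv]
        · simp [cz_apply, hv, mul_add, hc]
          ring
      rw [he, wt_smul hc, wt_cons_ne_zero one_ne_zero]
      have := hX (c⁻¹ • x) (X.smul_mem _ hx)
      omega
  refine Relation.ReflTransGen.tail (b := R.map (cz m) ⊔ Submodule.span F {v})
    (Relation.ReflTransGen.single ?_) ?_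
  · refine ⟨by rw [finrank_map_cz, hS], ?_, S.map (cz m) ⊔ Submodule.span F {v},
      hdc S dS hwS, ?_, le_sup_left, sup_le_sup_right (Submodule.map_mono hRS) _⟩
    · rw [Submodule.finrank_sup_span_singleton (hvS R), finrank_map_cz, hR]
    · rw [Submodule.finrank_sup_span_singleton (hvS S), finrank_map_cz, hS]
  · refine ⟨?_, by rw [finrank_map_cz, hS'], S'.map (cz m) ⊔ Submodule.span F {v},
      hdc S' dS' hwS', ?_, sup_le_sup_right (Submodule.map_mono hRS') _, le_sup_left⟩
    · rw [Submodule.finrank_sup_span_singleton (hvS R), finrank_map_cz, hR]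
    · rw [Submodule.finrank_sup_span_singleton (hvS S'), finrank_map_cz, hS']

/-- Theorem A in the dual picture: all codes of dimension `j` which lie in a code of dimension
`j + 1` (with minimum distance at least `t + 1`) are connected. -/
theorem dual_conn [Fintype F] {t k : ℕ} (j n : ℕ) (hn : n = k + j)
    (hB : ∀ m < n, {x : Fin m → F | wt x < t}.ncard < Fintype.card F ^ (k - 1))
    (U₁ U₂ M₁ M₂ : Submodule F (Fin n → F)) (hU₁ : finrank F U₁ = j) (hU₂ : finrank F U₂ = j)
    (hM₁ : finrank F M₁ = j + 1) (hM₂ : finrank F M₂ = j + 1) (d₁ : DCode (t + 1) M₁)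
    (d₂ : DCode (t + 1) M₂) (h₁ : U₁ ≤ M₁) (h₂ : U₂ ≤ M₂) :
    Conn (t + 1) j U₁ U₂ := by
  induction j generalizing n with
  | zero =>
    rw [Submodule.finrank_eq_zero.1 hU₁, Submodule.finrank_eq_zero.1 hU₂]
    exact Relation.ReflTransGen.refl
  | succ j ih =>
    obtain ⟨m, rfl⟩ : ∃ m, n = m + 1 := ⟨k + j, by omega⟩
    have hm : m = k + j := by omega
    -- the short code inside `M`
    have key : ∀ U M : Submodule F (Fin (m + 1) → F), finrank F U = j + 1 →
        finrank F M = j + 1 + 1 → DCode (t + 1) M → U ≤ M →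
        ∃ S : Submodule F (Fin m → F), finrank F S = j + 1 ∧ DCode (t + 1) S ∧
          Step (t + 1) (j + 1) U (S.map (cz m)) := by
      intro U M hU hM dM hUM
      set M0 : Submodule F (Fin (m + 1) → F) :=
        M ⊓ LinearMap.ker (LinearMap.proj (R := F) (φ := fun _ : Fin (m + 1) => F) 0) with hM0
      have hfr : j + 1 ≤ finrank F M0 := by
        have h1 := Submodule.finrank_sup_add_finrank_inf_eq M
          (LinearMap.ker (LinearMap.proj (R := F) (φ := fun _ : Fin (m + 1) => F) 0))
        have h2 := LinearMap.finrank_range_add_finrank_ker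
          (LinearMap.proj (R := F) (φ := fun _ : Fin (m + 1) => F) 0)
        have h3 : finrank F (LinearMap.range
            (LinearMap.proj (R := F) (φ := fun _ : Fin (m + 1) => F) 0)) ≤ 1 := by
          refine (Submodule.finrank_le _).trans ?_
          simp
        have h4 := Submodule.finrank_le (M ⊔
          (LinearMap.ker (LinearMap.proj (R := F) (φ := fun _ : Fin (m + 1) => F) 0)))
        rw [← hM0] at h1
        omega
      obtain ⟨S', hS'le, hS'fr⟩ := exists_le_finrank M0 hfr
      have hmap : (S'.comap (cz m)).map (cz m) = S' := by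
        rw [Submodule.map_comap_eq]
        refine inf_eq_right.2 ?_
        intro x hx
        have hx0 : x 0 = 0 := by
          have := (hS'le hx).2
          simpa using this
        refine ⟨fun i => x i.succ, ?_⟩
        rw [cz_apply]
        ext i
        refine Fin.cases ?_ (fun i => ?_) i
        · simp [hx0]
        · simp
      refine ⟨S'.comap (cz m), ?_, ?_, hU, ?_, M, dM, hM, hUM, ?_⟩
      · rw [← finrank_map_cz, hmap, hS'fr]
      · intro s hs hs0
        have h5 : cz m s ∈ M := (hS'le hs).1
        have h6 : cz m s ≠ 0 := fun h => hs0 (cz_injective m (by rw [h, map_zero]))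
        have := dM _ h5 h6
        rwa [cz_apply, wt_cons_zero] at this
      · rw [hmap, hS'fr]
      · rw [hmap]
        exact hS'le.trans inf_le_left
    obtain ⟨S₁, hS₁, dS₁, st₁⟩ := key U₁ M₁ hU₁ hM₁ d₁ h₁
    obtain ⟨S₂, hS₂, dS₂, st₂⟩ := key U₂ M₂ hU₂ hM₂ d₂ h₂
    obtain ⟨T₁, hT₁S, hT₁⟩ := exists_le_finrank S₁ (show j ≤ finrank F S₁ by omega)
    obtain ⟨T₂, hT₂S, hT₂⟩ := exists_le_finrank S₂ (show j ≤ finrank F S₂ by omega)
    have hBm := hB m (by omega)
    have hchain : Conn (t + 1) j T₁ T₂ :=
      ih m hm (fun m' hm' => hB m' (by omega)) T₁ T₂ S₁ S₂ hT₁ hT₂ hS₁ hS₂ dS₁ dS₂ hT₁S hT₂S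
    have hlift : ∀ R : Submodule F (Fin m → F), Conn (t + 1) j T₁ R →
        ∀ S : Submodule F (Fin m → F), finrank F R = j → R ≤ S → finrank F S = j + 1 →
          DCode (t + 1) S → Conn (t + 1) (j + 1) (S₁.map (cz m)) (S.map (cz m)) := by
      intro R hR
      unfold Conn at hR
      induction hR with
      | refl =>
        intro S hRj hRS hS dS
        exact conn_of_common hm hBm T₁ S₁ S hT₁ hS₁ hS hT₁S hRS dS₁ dS
      | tail _ hstep ih2 =>
        intro S hRj hRS hS dS
        obtain ⟨hb, hc, M, dM, hM, hbM, hcM⟩ := hstep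
        exact (ih2 M hb hbM hM dM).trans
          (conn_of_common hm hBm _ M S hc hM hS hcM hRS dM dS)
    have h3 := hlift T₂ hchain S₂ hT₂ hT₂S hS₂ dS₂
    exact (Relation.ReflTransGen.single st₁).trans
      (h3.trans (Relation.ReflTransGen.single st₂.symm))

end Pool.Agent.Helper38.CCG
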