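import Pool.Agent.Helper38.CCG.Connect

/-!
# Counting families of vectors with prescribed linear combinations
-/

namespace Pool.Agent.Helper38.CCG

open Module

/-- Fibres of a surjective additive homomorphism. -/
theorem ncard_fiber {G H : Type*} [AddCommGroup G] [AddCommGroup H] [Fintype G] [Fintype H]
    (f : G →+ H) (hf : Function.Surjective f) (h : H) :
    {g : G | f g = h}.ncard * Fintype.card H = Fintype.card G := by
  classical
  have h1 : ∀ b : H, {g : G | f g = b}.ncard = {g : G | f g = h}.ncard := by
    intro b
    obtain ⟨g0, hg0⟩ := hf (b - h)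
    have : {g : G | f g = b} = (fun g => g + g0) '' {g : G | f g = h} := by
      ext g
      simp only [Set.mem_ofPred_eq, Set.mem_image]
      constructor
      · intro hg
        exact ⟨g - g0, by rw [map_sub, hg, hg0]; abel, by abel⟩
      · rintro ⟨g', hg', rfl⟩
        rw [map_add, hg', hg0]
        abel
    rw [this, Set.ncard_image_of_injective _ (add_left_injective g0)]
  have h2 := Finset.card_eq_sum_card_fiberwise (f := f) (s := (Finset.univ : Finset G))
    (t := (Finset.univ : Finset H)) (fun _ _ => Finset.mem_univ _)
  have h3 : ∀ b : H, (Finset.univ.filter fun g => f g = b).card = {g : G | f g = h}.ncard := by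
    intro b
    rw [← h1 b, Set.ncard_eq_toFinset_card']
    congr 1
    ext g
    simp
  rw [Finset.sum_congr rfl (fun b _ => h3 b), Finset.sum_const, smul_eq_mul, Finset.card_univ,
    Finset.card_univ] at h2
  rw [h2, mul_comm]

variable {F V : Type*} [Field F] [AddCommGroup V] [Module F V]

/-- Linear combination of a family of vectors. -/
def phi {J : Type*} [Fintype J] (y : J → V) (a : J → F) : V := ∑ j, a j • y j

/-- `phi` as an additive homomorphism in the family. -/
def phiHom {J : Type*} [Fintype J] (a : J → F) : (J → V) →+ V where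
  toFun y := phi y a
  map_zero' := by simp [phi]
  map_add' x y := by simp [phi, Finset.sum_add_distrib]

theorem phi_single {J : Type*} [Fintype J] [DecidableEq J] (a : J → F) (j : J) (v : V) :
    phi (Pi.single j v) a = a j • v := by
  unfold phi
  rw [Finset.sum_eq_single j]
  · simp
  · intro b _ hb
    simp [hb]
  · intro h
    exact absurd (Finset.mem_univ _) h

theorem phi_add_left {J : Type*} [Fintype J] (x y : J → V) (a : J → F) :
    phi (x + y) a = phi x a + phi y a := (phiHom a).map_add x y

theorem phi_add_right {J : Type*} [Fintype J] (y : J → V) (a b : J → F) :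
    phi y (a + b) = phi y a + phi y b := by
  simp [phi, add_smul, Finset.sum_add_distrib]

theorem phi_smul_right {J : Type*} [Fintype J] (y : J → V) (c : F) (a : J → F) :
    phi y (c • a) = c • phi y a := by
  simp [phi, Finset.smul_sum, mul_smul]

theorem phi_zero_right {J : Type*} [Fintype J] (y : J → V) : phi y (0 : J → F) = 0 := by
  simp [phi]

theorem card_one {J : Type*} [Fintype J] [Fintype V] [Fintype (J → V)] {a : J → F} (ha : a ≠ 0)
    (v : V) : {y : J → V | phi y a = v}.ncard * Fintype.card V = Fintype.card (J → V) := by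
  classical
  refine ncard_fiber (phiHom (V := V) a) ?_ v
  intro w
  obtain ⟨j, hj⟩ := Function.ne_iff.1 ha
  refine ⟨Pi.single j ((a j)⁻¹ • w), ?_⟩
  show phi (Pi.single j ((a j)⁻¹ • w)) a = w
  rw [phi_single, smul_smul, mul_inv_cancel₀ hj, one_smul]

theorem card_two {J : Type*} [Fintype J] [Fintype V] [Fintype (J → V)] {a c : J → F} (ha : a ≠ 0)
    (hc : ∀ r : F, c ≠ r • a) (v w : V) :
    {y : J → V | phi y a = v ∧ phi y c = w}.ncard * Fintype.card V ^ 2
      = Fintype.card (J → V) := by
  classical
  have hsurj : Function.Surjective ((phiHom (V := V) a).prod (phiHom (V := V) c)) := by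
    rintro ⟨v, w⟩
    obtain ⟨j, hj⟩ := Function.ne_iff.1 ha
    rw [Pi.zero_apply] at hj
    -- eliminate
    set b : J → F := c - (c j / a j) • a with hb
    have hb0 : b ≠ 0 := by
      intro h
      exact hc _ (sub_eq_zero.1 h)
    have hbj : b j = 0 := by
      rw [hb]
      simp [hj]
    obtain ⟨i, hi⟩ := Function.ne_iff.1 hb0
    rw [Pi.zero_apply] at hi
    have hij : i ≠ j := by
      rintro rfl
      exact hi hbj
    set u : V := (b i)⁻¹ • (w - (c j / a j) • v) with hu
    set y : J → V := Pi.single i u + Pi.single j ((a j)⁻¹ • (v - a i • u)) with hy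
    have h1 : phi y a = v := by
      rw [hy, phi_add_left, phi_single, phi_single, smul_inv_smul₀ hj]
      abel
    have h2 : phi y b = w - (c j / a j) • v := by
      rw [hy, phi_add_left, phi_single, phi_single, hbj, zero_smul, add_zero, hu, smul_smul,
        mul_inv_cancel₀ hi, one_smul]
    have h3 : c = b + (c j / a j) • a := by
      rw [hb]
      abel
    have h4 : phi y c = phi y b + (c j / a j) • phi y a := by
      conv_lhs => rw [h3]
      rw [phi_add_right, phi_smul_right]
    refine ⟨y, ?_⟩
    show (phi y a, phi y c) = (v, w)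
    rw [h4, h1, h2, sub_add_cancel]
  have h := ncard_fiber _ hsurj (v, w)
  rw [Fintype.card_prod, ← sq] at h
  rw [← h]
  congr 2
  ext y
  show _ ↔ (phi y a, phi y c) = (v, w)
  rw [Prod.mk.injEq]
  rfl

end Pool.Agent.Helper38.CCG
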