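import Mathlib

/-!
# Code collinearity graphs: definitions

`C_t(n,k)` is the set of the `k`-dimensional codes of length `n` whose dual code has minimum
distance at least `t + 1`; two distinct codes are adjacent when their intersection lies in
`C_t(n,k-1)`.
-/

namespace Pool.Agent.Helper38.CCG

/-- The Hamming weight of a vector. -/
noncomputable def wt {ι F : Type*} [Zero F] (x : ι → F) : ℕ := (Function.support x).ncard

/-- `IsCode t k C`: the code `C` lies in `C_t(n,k)`, that is, it has dimension `k` and every
nonzero vector orthogonal to it (for the standard dot product) has weight at least `t + 1`. -/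
def IsCode {F : Type*} [Field F] {n : ℕ} (t k : ℕ) (C : Submodule F (Fin n → F)) : Prop :=
  Module.finrank F C = k ∧
    ∀ w : Fin n → F, w ≠ 0 → (∀ c ∈ C, ∑ i, c i * w i = 0) → t + 1 ≤ wt w

/-- The graph `Lambda_t(n,k)` over the field `F`. -/
def Lam (F : Type*) [Field F] (t n k : ℕ) :
    SimpleGraph {C : Submodule F (Fin n → F) // IsCode t k C} where
  Adj X Y := X ≠ Y ∧ IsCode t (k - 1) (X.1 ⊓ Y.1)
  symm := ⟨fun X Y h => ⟨h.1.symm, by rw [inf_comm]; exact h.2⟩⟩
  loopless := ⟨fun _ h => h.1 rfl⟩

/-- `C` is an isolated code of `C_t(n,k)`: no proper subspace of `C` lies in `C_t(n,k-1)`. -/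
def Isolated {F : Type*} [Field F] {n : ℕ} (t k : ℕ) (C : Submodule F (Fin n → F)) : Prop :=
  IsCode t k C ∧ ∀ D : Submodule F (Fin n → F), D < C → ¬ IsCode t (k - 1) D

/-- The least length `n > k` for which `Lambda_t(n,k)` is disconnected (infinity if there is
none); `Preconnected` means that any two vertices are joined by a path. -/
noncomputable def nu (F : Type*) [Field F] (t k : ℕ) : ℕ∞ :=
  sInf {m : ℕ∞ | ∃ n : ℕ, k < n ∧ ¬ (Lam F t n k).Preconnected ∧ m = n}

/-- The least length `n > k` for which `C_t(n,k)` contains an isolated code. -/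
noncomputable def nuPlus (F : Type*) [Field F] (t k : ℕ) : ℕ∞ :=
  sInf {m : ℕ∞ | ∃ n : ℕ, k < n ∧ (∃ C : Submodule F (Fin n → F), Isolated t k C) ∧ m = n}

end Pool.Agent.Helper38.CCG
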