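import Pool.Agent.Helper38.CCG.Connect

/-!
# From the dual picture to the code collinearity graph
-/

namespace Pool.Agent.Helper38.CCG

open Module

variable {F : Type*} [Field F] {n : ℕ}

/-- The standard dot product as a bilinear form. -/
noncomputable def dotB (F : Type*) [Field F] (n : ℕ) : LinearMap.BilinForm F (Fin n → F) :=
  Matrix.toBilin' 1

theorem dotB_apply (x y : Fin n → F) : dotB F n x y = ∑ i, x i * y i := by
  unfold dotB
  rw [Matrix.toBilin'_apply']
  simp [dotProduct]

theorem dotB_nondegenerate : (dotB F n).Nondegenerate :=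
  LinearMap.BilinForm.nondegenerate_toBilin'_of_det_ne_zero' 1 (by simp)

theorem dotB_isRefl : (dotB F n).IsRefl := by
  intro x y h
  rw [dotB_apply] at h ⊢
  rw [← h]
  exact Finset.sum_congr rfl fun i _ => mul_comm _ _

/-- The dual code. -/
noncomputable def perp (C : Submodule F (Fin n → F)) : Submodule F (Fin n → F) :=
  (dotB F n).orthogonal C

theorem mem_perp {C : Submodule F (Fin n → F)} {w : Fin n → F} :
    w ∈ perp C ↔ ∀ c ∈ C, ∑ i, c i * w i = 0 := by
  unfold perp
  rw [LinearMap.BilinForm.mem_orthogonal_iff]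
  constructor
  · intro h c hc
    rw [← dotB_apply]
    exact h c hc
  · intro h c hc
    have := h c hc
    rw [← dotB_apply] at this
    exact this

theorem finrank_perp (C : Submodule F (Fin n → F)) : finrank F (perp C) = n - finrank F C := by
  unfold perp
  rw [LinearMap.BilinForm.finrank_orthogonal dotB_nondegenerate, finrank_fin_fun]

theorem perp_perp (C : Submodule F (Fin n → F)) : perp (perp C) = C :=
  LinearMap.BilinForm.orthogonal_orthogonal dotB_nondegenerate dotB_isRefl C

theorem perp_anti {C D : Submodule F (Fin n → F)} (h : C ≤ D) : perp D ≤ perp C := by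
  intro w hw
  rw [mem_perp] at hw ⊢
  exact fun c hc => hw c (h hc)

theorem finrank_le_n (C : Submodule F (Fin n → F)) : finrank F C ≤ n := by
  have := Submodule.finrank_le C
  rwa [finrank_fin_fun] at this

theorem isCode_iff {t k : ℕ} {C : Submodule F (Fin n → F)} :
    IsCode t k C ↔ finrank F C = k ∧ DCode (t + 1) (perp C) := by
  unfold IsCode DCode
  refine and_congr_right fun _ => ?_
  constructor
  · intro h u hu hu0
    exact h u hu0 (mem_perp.1 hu)
  · intro h w hw hw'
    exact h w (mem_perp.2 hw') hw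

theorem DCode.mono {ι : Type*} {d : ℕ} {U M : Submodule F (ι → F)} (h : DCode d M) (hUM : U ≤ M) :
    DCode d U :=
  fun u hu hu0 => h u (hUM hu) hu0

/-- A path in the dual graph gives a path in `Lambda_t(n,k)`. -/
theorem reachable_of_conn {t k : ℕ} (hk : 1 ≤ k)
    (X : {C : Submodule F (Fin n → F) // IsCode t k C}) (U : Submodule F (Fin n → F))
    (h : Conn (t + 1) (n - k) (perp X.1) U) :
    ∀ Y : {C : Submodule F (Fin n → F) // IsCode t k C}, perp Y.1 = U →
      (Lam F t n k).Reachable X Y := by
  have hkn : k ≤ n := by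
    have := finrank_le_n X.1
    rwa [X.2.1] at this
  unfold Conn at h
  induction h with
  | refl =>
    intro Y hY
    have : Y = X := by
      apply Subtype.ext
      rw [← perp_perp Y.1, hY, perp_perp]
    rw [this]
  | @tail U U' _ hstep ih =>
    intro Y hY
    obtain ⟨hU, hU', M, dM, hM, hUM, hU'M⟩ := hstep
    have hZ : IsCode t k (perp U) := by
      rw [isCode_iff, finrank_perp, perp_perp]
      exact ⟨by omega, dM.mono hUM⟩
    have h1 := ih ⟨perp U, hZ⟩ (perp_perp U)
    refine h1.trans ?_
    by_cases hZY : (⟨perp U, hZ⟩ : {C : Submodule F (Fin n → F) // IsCode t k C}) = Y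
    · rw [hZY]
    · apply SimpleGraph.Adj.reachable
      refine ⟨hZY, ?_⟩
      have hne : perp U ≠ Y.1 := fun h => hZY (Subtype.ext h)
      have hD1 : perp M ≤ perp U := perp_anti hUM
      have hD2 : perp M ≤ Y.1 := by
        rw [← perp_perp Y.1, hY]
        exact perp_anti hU'M
      have hDr : finrank F (perp M) = k - 1 := by
        rw [finrank_perp]
        omega
      have hle : finrank F (perp U ⊓ Y.1 : Submodule F (Fin n → F)) ≤ k - 1 := by
        have hlt : perp U ⊓ Y.1 < perp U := by
          refine lt_of_le_of_ne inf_le_left fun h => hne ?_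
          have h2 : perp U ≤ Y.1 := inf_eq_left.1 h
          exact Submodule.eq_of_le_of_finrank_eq h2 (by rw [hZ.1, Y.2.1])
        have := Submodule.finrank_lt_finrank_of_lt hlt
        rw [hZ.1] at this
        omega
      have heq : perp M = perp U ⊓ Y.1 :=
        Submodule.eq_of_le_of_finrank_le (le_inf hD1 hD2) (by rw [hDr]; exact hle)
      show IsCode t (k - 1) (perp U ⊓ Y.1)
      rw [← heq, isCode_iff, perp_perp]
      exact ⟨hDr, dM⟩

theorem exists_dual_super {t k : ℕ} {X : Submodule F (Fin n → F)} (hX : IsCode t k X)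
    (hX' : ¬ Isolated t k X) :
    1 ≤ k ∧ ∃ M : Submodule F (Fin n → F), DCode (t + 1) M ∧ finrank F M = n - k + 1 ∧
      perp X ≤ M := by
  unfold Isolated at hX'
  push Not at hX'
  obtain ⟨D, hDX, hD⟩ := hX' hX
  have h1 := Submodule.finrank_lt_finrank_of_lt hDX
  rw [hX.1, hD.1] at h1
  have h2 := finrank_le_n X
  rw [hX.1] at h2
  refine ⟨by omega, perp D, (isCode_iff.1 hD).2, ?_, perp_anti hDX.le⟩
  rw [finrank_perp, hD.1]
  omega

theorem ball_mono [Fintype F] (t m : ℕ) :
    {x : Fin m → F | wt x < t}.ncard ≤ {x : Fin (m + 1) → F | wt x < t}.ncard := by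
  rw [← Set.ncard_image_of_injective _ (cz_injective (F := F) m)]
  apply Set.ncard_le_ncard _ (Set.toFinite _)
  rintro _ ⟨x, hx, rfl⟩
  show wt (cz m x) < t
  rw [cz_apply, wt_cons_zero]
  exact hx

theorem ball_mono' [Fintype F] (t : ℕ) {m m' : ℕ} (h : m ≤ m') :
    {x : Fin m → F | wt x < t}.ncard ≤ {x : Fin m' → F | wt x < t}.ncard := by
  induction h with
  | refl => exact le_rfl
  | step _ ih => exact ih.trans (ball_mono t _)

/-- Theorem A: if the ball of radius `t - 1` in `F^(n-1)` has less than `q^(k-1)` elements, then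
any two non-isolated codes of `C_t(n,k)` are joined by a path of `Lambda_t(n,k)`. -/
theorem nonisolated_reachable [Fintype F] {t k : ℕ}
    (hB : {x : Fin (n - 1) → F | wt x < t}.ncard < Fintype.card F ^ (k - 1))
    (X Y : {C : Submodule F (Fin n → F) // IsCode t k C}) (hX : ¬ Isolated t k X.1)
    (hY : ¬ Isolated t k Y.1) : (Lam F t n k).Reachable X Y := by
  obtain ⟨hk, M₁, d₁, hM₁, h₁⟩ := exists_dual_super X.2 hX
  obtain ⟨_, M₂, d₂, hM₂, h₂⟩ := exists_dual_super Y.2 hY
  have hkn : k ≤ n := by
    have := finrank_le_n X.1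
    rwa [X.2.1] at this
  have hc : Conn (t + 1) (n - k) (perp X.1) (perp Y.1) := by
    refine dual_conn (k := k) (n - k) n (by omega) ?_ _ _ M₁ M₂ ?_ ?_ hM₁ hM₂ d₁ d₂ h₁ h₂
    · intro m hm
      exact lt_of_le_of_lt (ball_mono' t (by omega)) hB
    · rw [finrank_perp, X.2.1]
    · rw [finrank_perp, Y.2.1]
  exact reachable_of_conn hk X _ hc Y rfl

end Pool.Agent.Helper38.CCG
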