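import Pool.Agent.Helper38.CCG.Step

/-!
# Existence of small covering families without short dependencies
-/

namespace Pool.Agent.Helper38.CCG

open Module

theorem iterate_batch {F V : Type} [Field F] [AddCommGroup V] [Module F V] [Fintype F]
    [Fintype V] {t : ℕ} (n r : ℕ) (ht : 1 ≤ t) (θ : ℝ) (hθ0 : 0 ≤ θ)
    (hA : 0 < (Nat.card (Fin t → Fin n × Fˣ) : ℝ))
    (hθ : ∀ c : ℕ, c + t * n ≤ r * (t * n) → (Nat.card V : ℝ) /
      (Nat.card (Fin t → Fin n × Fˣ) : ℝ)
          + (Nat.card (Fin t → Fin n × Fˣ) : ℝ) * (t * Nat.card F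
            * (1 + ((c : ℝ) + t * n) * (Nat.card F - 1)) ^ (t - 1)) / (Nat.card V : ℝ) ^ 2 ≤ θ) :
    ∀ i ≤ r, ∃ (I : Type) (_ : Fintype I) (x : I → V), Ind F t x ∧
      Nat.card I ≤ i * (t * n) ∧
      ({v : V | ¬ Cov F t x v}.ncard : ℝ) ≤ (Nat.card V : ℝ) * θ ^ i := by
  intro i
  induction i with
  | zero =>
    intro _
    refine ⟨Fin 0, inferInstance, fun j => j.elim0, ?_, by simp, ?_⟩
    · intro a ha
      exact absurd (Subsingleton.elim a 0) ha
    · rw [pow_zero, mul_one]
      have := Set.ncard_le_ncard (Set.subset_univ {v : V | ¬ Cov F t (fun j : Fin 0 => j.elim0) v})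
        (Set.toFinite _)
      rw [Set.ncard_univ] at this
      exact_mod_cast this
  | succ i ih =>
    intro hi
    obtain ⟨I, hI, x, hx, hc, hu⟩ := ih (by omega)
    obtain ⟨I', hI', x', hx', hc', hu'⟩ := batch n ht x hx hA
    refine ⟨I', hI', x', hx', ?_, ?_⟩
    · rw [add_mul, one_mul]
      omega
    · have h1 : Nat.card I + t * n ≤ r * (t * n) := by
        have h2 : (i + 1) * (t * n) ≤ r * (t * n) := Nat.mul_le_mul_right _ hi
        rw [add_mul, one_mul] at h2
        omega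
      have h3 := hθ (Nat.card I) h1
      refine hu'.trans ?_
      refine (mul_le_mul_of_nonneg_left h3 (Nat.cast_nonneg _)).trans ?_
      rw [pow_succ, ← mul_assoc]
      exact mul_le_mul_of_nonneg_right hu hθ0

/-- The exponents. -/
def ee (s : ℕ) : ℕ := 3 * (s + 1) ^ 2 + 3 * (s + 1) + 1

/-- The exponents. -/
def EE (s : ℕ) : ℕ := 3 * (s + 1) ^ 2 * (s + 2)

/-- The threshold for the auxiliary variable. -/
def BB (s : ℕ) : ℕ :=
  2 ^ (s + 1) * (s + 1) * (4 * ee s * (s + 1)) ^ s + 2 ^ ee s + (4 * ee s * (s + 1)) ^ s + 2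

theorem exists_family (s : ℕ) (F : Type) [Field F] [Fintype F] (k : ℕ) (hk : s + 1 < k)
    (hQ : BB s ^ EE s ≤ Fintype.card F ^ k) :
    ∃ (I : Type) (_ : Fintype I) (x : I → (Fin k → F)), Ind F (s + 1) x ∧
      (∀ v, Cov F (s + 1) x v) ∧
      (1 + Nat.card I * (Fintype.card F - 1)) ^ s < Fintype.card F ^ (k - 1) := by
  classical
  set t : ℕ := s + 1 with ht
  set e : ℕ := ee s with he
  set E : ℕ := EE s with hE
  set q : ℕ := Fintype.card F with hq
  have hcF : Nat.card F = q := Nat.card_eq_fintype_card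
  have hq2 : 2 ≤ q := Fintype.one_lt_card
  have hq1 : (1 : ℝ) ≤ (q : ℝ) - 1 := by
    have : (2 : ℝ) ≤ (q : ℝ) := by exact_mod_cast hq2
    linarith
  have hE0 : E ≠ 0 := by
    rw [hE]
    unfold EE
    positivity
  -- exponent identities
  have id1 : E + t = e * t := by
    rw [hE, he, ht]; unfold EE ee; ring
  have id2 : 2 * E = e * t + e * s + 3 * t ^ 2 + t + 1 := by
    rw [hE, he, ht]; unfold EE ee; ring
  have id3 : E = e * s + (2 * t + 1) + 3 * t ^ 2 := by
    rw [hE, he, ht]; unfold EE ee; ring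
  have id4 : E = 3 * t ^ 2 * (t + 1) := by
    rw [hE, ht]; unfold EE; ring
  have id5 : e = 3 * t ^ 2 + (3 * t + 1) := by
    rw [he, ht]; unfold ee; ring
  -- the variable `x`
  set Q : ℝ := (q : ℝ) ^ k with hQdef
  have hQ0 : 0 ≤ Q := by positivity
  set x : ℝ := Q ^ ((E : ℝ)⁻¹) with hx
  have hxE : x ^ E = Q := by
    rw [hx]
    exact Real.rpow_inv_natCast_pow hQ0 hE0
  have hx0 : 0 ≤ x := Real.rpow_nonneg hQ0 _
  have hBx : (BB s : ℝ) ≤ x := by
    have h1 : (BB s : ℝ) ^ E ≤ x ^ E := by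
      rw [hxE, hQdef]
      exact_mod_cast hQ
    exact le_of_pow_le_pow_left₀ hE0 hx0 h1
  have hC1 : (2 : ℝ) ^ t * t * (4 * e * t) ^ s ≤ x := by
    refine le_trans ?_ hBx
    have : 2 ^ t * t * (4 * e * t) ^ s ≤ BB s := by
      unfold BB
      rw [← he, ← ht, add_assoc, add_assoc]
      exact Nat.le_add_right _ _
    exact_mod_cast this
  have hC2 : (2 : ℝ) ^ e < x := by
    refine lt_of_lt_of_le ?_ hBx
    have : 2 ^ e < BB s := by
      unfold BB
      rw [← he, ← ht]
      generalize 2 ^ e = a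
      omega
    exact_mod_cast this
  have hC3 : (4 * (e : ℝ) * t) ^ s < x := by
    refine lt_of_lt_of_le ?_ hBx
    have : (4 * e * t) ^ s < BB s := by
      unfold BB
      rw [← he, ← ht]
      generalize 2 ^ e = a
      omega
    exact_mod_cast this
  have hx1 : 1 ≤ x := by
    have : (1 : ℝ) ≤ 2 ^ e := one_le_pow₀ (by norm_num)
    linarith
  have hxpos : 0 < x := by linarith
  -- `q` is small
  have hqx : (q : ℝ) ≤ x ^ (3 * t ^ 2) := by
    have h1 : (q : ℝ) ^ (t + 1) ≤ (x ^ (3 * t ^ 2)) ^ (t + 1) := by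
      rw [← pow_mul, ← id4, hxE, hQdef]
      exact pow_le_pow_right₀ (by linarith) (by omega)
    exact le_of_pow_le_pow_left₀ (by omega) (by positivity) h1
  have hqxe : (q : ℝ) ≤ x ^ e := by
    refine hqx.trans (pow_le_pow_right₀ hx1 ?_)
    rw [id5]
    omega
  -- number of columns in a batch
  set n : ℕ := ⌈x ^ e / ((q : ℝ) - 1)⌉₊ with hn
  set y : ℝ := (n : ℝ) * ((q : ℝ) - 1) with hy
  have hy1 : x ^ e ≤ y := by
    have h1 : x ^ e / ((q : ℝ) - 1) ≤ n := Nat.le_ceil _
    rw [div_le_iff₀ (by linarith)] at h1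
    exact h1
  have hy2 : y ≤ 2 * x ^ e := by
    have h1 : (n : ℝ) < x ^ e / ((q : ℝ) - 1) + 1 := Nat.ceil_lt_add_one (by positivity)
    have h2 : y < (x ^ e / ((q : ℝ) - 1) + 1) * ((q : ℝ) - 1) :=
      mul_lt_mul_of_pos_right h1 (by linarith)
    rw [add_mul, div_mul_cancel₀ _ (by linarith), one_mul] at h2
    linarith
  have hxe1 : 1 ≤ x ^ e := one_le_pow₀ hx1
  have hy0 : 0 < y := by linarith
  -- the number of structured words
  have hAcard : (Nat.card (Fin t → Fin n × Fˣ) : ℝ) = y ^ t := by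
    rw [Nat.card_eq_fintype_card, Fintype.card_fun, Fintype.card_prod, Fintype.card_units,
      Fintype.card_fin, Fintype.card_fin, hy]
    have : 1 ≤ Fintype.card F := Fintype.card_pos
    push_cast [Nat.cast_sub this]
    rfl
  have hVcard : (Nat.card (Fin k → F) : ℝ) = Q := by
    rw [Nat.card_eq_fintype_card, Fintype.card_fun, Fintype.card_fin, hQdef]
    push_cast
    rfl
  have htR : (1 : ℝ) ≤ (t : ℝ) := by
    rw [ht]
    push_cast
    have : (0 : ℝ) ≤ (s : ℝ) := Nat.cast_nonneg _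
    linarith
  have heR : (1 : ℝ) ≤ (e : ℝ) := by
    have : 1 ≤ e := by rw [id5]; omega
    exact_mod_cast this
  have hball : ∀ m : ℝ, 0 ≤ m → m ≤ e * (t * n) →
      (1 + m * ((q : ℝ) - 1)) ^ s ≤ (4 * e * t) ^ s * (x ^ e) ^ s := by
    intro m hm0 hm
    rw [← mul_pow]
    refine pow_le_pow_left₀ (by positivity) ?_ s
    have h1 : m * ((q : ℝ) - 1) ≤ e * t * y := by
      have := mul_le_mul_of_nonneg_right hm (show (0 : ℝ) ≤ (q : ℝ) - 1 by linarith)
      refine this.trans (le_of_eq ?_)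
      rw [hy]
      ring
    have h2 : (1 : ℝ) ≤ e * t := by nlinarith
    have h3 : e * t * y ≤ e * t * (2 * x ^ e) := mul_le_mul_of_nonneg_left hy2 (by linarith)
    have h4 : 1 ≤ (e : ℝ) * t * x ^ e := by nlinarith
    nlinarith
  -- the iteration
  set θ : ℝ := 2 / x ^ t with hθdef
  have hxt : 0 < x ^ t := by positivity
  have hQpos : 0 < Q := by rw [← hxE]; positivity
  have hit := iterate_batch (F := F) (V := Fin k → F) n e (show 1 ≤ t by omega) θ
    (by positivity) (by rw [hAcard]; positivity) (by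
      intro c hc
      rw [hAcard, hVcard, hcF]
      have hcR : (c : ℝ) + t * n ≤ e * (t * n) := by exact_mod_cast hc
      have h1 : Q / y ^ t ≤ 1 / x ^ t := by
        rw [div_le_div_iff₀ (by positivity) hxt, one_mul, ← hxE, ← pow_add, id1, pow_mul]
        exact pow_le_pow_left₀ (by positivity) hy1 t
      have h2 : y ^ t * (t * q * (1 + ((c : ℝ) + t * n) * ((q : ℝ) - 1)) ^ (t - 1)) / Q ^ 2
          ≤ 1 / x ^ t := by
        rw [div_le_div_iff₀ (by positivity) hxt, one_mul]
        have hs : t - 1 = s := by omega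
        rw [hs]
        have h3 := hball ((c : ℝ) + t * n) (by positivity) hcR
        have h4 : y ^ t ≤ 2 ^ t * (x ^ e) ^ t := by
          rw [← mul_pow]
          exact pow_le_pow_left₀ hy0.le hy2 t
        have h5 : (t : ℝ) * q * (1 + ((c : ℝ) + t * n) * ((q : ℝ) - 1)) ^ s
            ≤ t * x ^ (3 * t ^ 2) * ((4 * e * t) ^ s * (x ^ e) ^ s) := by
          apply mul_le_mul _ h3 (by
            have : (0 : ℝ) ≤ 1 + ((c : ℝ) + t * n) * ((q : ℝ) - 1) := by
              have : (0 : ℝ) ≤ (q : ℝ) - 1 := by linarith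
              positivity
            positivity) (by positivity)
          exact mul_le_mul_of_nonneg_left hqx (by positivity)
        have h5' : 0 ≤ (t : ℝ) * q * (1 + ((c : ℝ) + t * n) * ((q : ℝ) - 1)) ^ s := by
          have : (0 : ℝ) ≤ 1 + ((c : ℝ) + t * n) * ((q : ℝ) - 1) := by
            have : (0 : ℝ) ≤ (q : ℝ) - 1 := by linarith
            positivity
          positivity
        have h6 := mul_le_mul h4 h5 h5' (by positivity)
        have h7 := mul_le_mul_of_nonneg_right h6 hxt.le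
        refine h7.trans ?_
        have h8 : 2 ^ t * (x ^ e) ^ t * (t * x ^ (3 * t ^ 2) * ((4 * e * t) ^ s * (x ^ e) ^ s))
            * x ^ t = (2 ^ t * t * (4 * e * t) ^ s) * x ^ (e * t + e * s + 3 * t ^ 2 + t) := by
          have h9 : x ^ (e * t + e * s + 3 * t ^ 2 + t)
              = (x ^ e) ^ t * (x ^ e) ^ s * x ^ (3 * t ^ 2) * x ^ t := by
            rw [← pow_mul, ← pow_mul, ← pow_add, ← pow_add, ← pow_add]
          rw [h9]
          generalize x ^ (3 * t ^ 2) = a1
          generalize (x ^ e) ^ t = a2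
          generalize (x ^ e) ^ s = a3
          generalize x ^ t = a4
          generalize (2 : ℝ) ^ t = a5
          ring
        rw [h8, ← hxE, ← pow_mul, mul_comm E 2, id2, pow_succ x, mul_comm _ x]
        exact mul_le_mul_of_nonneg_right hC1 (by positivity)
      calc _ ≤ 1 / x ^ t + 1 / x ^ t := add_le_add h1 h2
        _ = θ := by rw [hθdef]; ring) e le_rfl
  obtain ⟨I, hI, z, hz, hcard, hu⟩ := hit
  refine ⟨I, hI, z, hz, ?_, ?_⟩
  · -- nothing is uncovered
    have h1 : (Nat.card (Fin k → F) : ℝ) * θ ^ e < 1 := by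
      rw [hVcard, hθdef, div_pow, ← pow_mul, mul_comm t e, ← id1, ← hxE, pow_add,
        mul_div_assoc', div_lt_one (by positivity)]
      have h2 : x ≤ x ^ t := by
        calc x = x ^ 1 := (pow_one x).symm
          _ ≤ x ^ t := pow_le_pow_right₀ hx1 (by omega)
      have h3 : (2 : ℝ) ^ e < x ^ t := lt_of_lt_of_le hC2 h2
      exact mul_lt_mul_of_pos_left h3 (by positivity)
    have h2 : ({v : Fin k → F | ¬ Cov F t z v}.ncard : ℝ) < 1 := lt_of_le_of_lt hu h1
    have h3 : {v : Fin k → F | ¬ Cov F t z v}.ncard = 0 := by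
      have : {v : Fin k → F | ¬ Cov F t z v}.ncard < 1 := by exact_mod_cast h2
      omega
    rw [Set.ncard_eq_zero (Set.toFinite _)] at h3
    intro v
    by_contra hv
    exact Set.eq_empty_iff_forall_notMem.1 h3 v hv
  · have h1 : ((Nat.card I : ℕ) : ℝ) ≤ e * (t * n) := by exact_mod_cast hcard
    have h2 := hball (Nat.card I) (Nat.cast_nonneg _) h1
    have h3 : (4 * (e : ℝ) * t) ^ s * (x ^ e) ^ s < (q : ℝ) ^ (k - 1) := by
      have h4 : x ^ (e * s + (2 * t + 1)) ≤ (q : ℝ) ^ (k - 1) := by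
        have h5 : x ^ (e * s + (2 * t + 1)) * x ^ (3 * t ^ 2) = (q : ℝ) ^ (k - 1) * q := by
          rw [← pow_add, ← id3, hxE, hQdef, ← pow_succ]
          congr 1
          omega
        have h6 : (q : ℝ) ^ (k - 1) * q ≤ (q : ℝ) ^ (k - 1) * x ^ (3 * t ^ 2) :=
          mul_le_mul_of_nonneg_left hqx (by positivity)
        rw [← h5] at h6
        exact le_of_mul_le_mul_right h6 (by positivity)
      refine lt_of_lt_of_le ?_ h4
      rw [pow_add, ← pow_mul, mul_comm]
      have h7 : x ≤ x ^ (2 * t + 1) := by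
        calc x = x ^ 1 := (pow_one x).symm
          _ ≤ x ^ (2 * t + 1) := pow_le_pow_right₀ hx1 (by omega)
      exact mul_lt_mul_of_pos_left (lt_of_lt_of_le hC3 h7) (by positivity)
    have h8 : ((1 + Nat.card I * (q - 1) : ℕ) : ℝ) ^ s < (q : ℝ) ^ (k - 1) := by
      have : 1 ≤ q := by omega
      push_cast [Nat.cast_sub this]
      exact lt_of_le_of_lt h2 h3
    exact_mod_cast h8

end Pool.Agent.Helper38.CCG
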