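import Pool.Agent.Helper38.CCG.Code
import Pool.Agent.Helper38.CCG.Exist

/-!
# The final assembly
-/

namespace Pool.Agent.Helper38.CCG

open Module

/-- The threshold is at most `2 ^ (8 t ^ 2)`. -/
theorem BB_le (s : ℕ) : BB s ≤ 2 ^ (8 * (s + 1) ^ 2) := by
  have hee : ee s ≤ 7 * (s + 1) ^ 2 := by
    unfold ee
    nlinarith
  have hs : s + 1 ≤ 2 ^ s := Nat.lt_two_pow_self
  -- the base of the power
  have h1 : 4 * ee s * (s + 1) ≤ 2 ^ (3 * s + 5) := by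
    calc 4 * ee s * (s + 1) ≤ 4 * (7 * (s + 1) ^ 2) * (s + 1) := by gcongr
      _ ≤ 4 * (7 * (2 ^ s) ^ 2) * 2 ^ s := by gcongr
      _ = 28 * (2 ^ s) ^ 3 := by ring
      _ ≤ 32 * (2 ^ s) ^ 3 := by gcongr; norm_num
      _ = 2 ^ (3 * s + 5) := by
        rw [pow_add, ← pow_mul, mul_comm s 3]
        ring
  have h2 : (4 * ee s * (s + 1)) ^ s ≤ 2 ^ ((3 * s + 5) * s) := by
    rw [pow_mul]
    exact Nat.pow_le_pow_left h1 s
  have h3 : 2 ^ (s + 1) * (s + 1) * (4 * ee s * (s + 1)) ^ s ≤ 2 ^ (7 * (s + 1) ^ 2) := by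
    calc 2 ^ (s + 1) * (s + 1) * (4 * ee s * (s + 1)) ^ s
        ≤ 2 ^ (s + 1) * 2 ^ s * 2 ^ ((3 * s + 5) * s) := by gcongr
      _ = 2 ^ (s + 1 + s + (3 * s + 5) * s) := by rw [← pow_add, ← pow_add]
      _ ≤ 2 ^ (7 * (s + 1) ^ 2) := by
        apply Nat.pow_le_pow_right (by norm_num)
        nlinarith
  have h4 : (4 * ee s * (s + 1)) ^ s ≤ 2 ^ (7 * (s + 1) ^ 2 - 6) := by
    refine h2.trans (Nat.pow_le_pow_right (by norm_num) ?_)
    apply Nat.le_sub_of_add_le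
    nlinarith
  have h5 : 2 ^ ee s ≤ 2 ^ (7 * (s + 1) ^ 2) := Nat.pow_le_pow_right (by norm_num) hee
  rcases Nat.eq_zero_or_pos s with rfl | hs1
  · unfold BB ee
    norm_num
  · have h6 : 2 ^ (7 * (s + 1) ^ 2 - 6) ≤ 2 ^ (7 * (s + 1) ^ 2) :=
      Nat.pow_le_pow_right (by norm_num) (Nat.sub_le _ _)
    have h7 : 2 ≤ 2 ^ (7 * (s + 1) ^ 2) := by
      calc 2 = 2 ^ 1 := rfl
        _ ≤ _ := Nat.pow_le_pow_right (by norm_num) (by nlinarith)
    have h8 : 4 * 2 ^ (7 * (s + 1) ^ 2) ≤ 2 ^ (8 * (s + 1) ^ 2) := by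
      calc 4 * 2 ^ (7 * (s + 1) ^ 2) = 2 ^ (7 * (s + 1) ^ 2 + 2) := by rw [pow_add]; ring
        _ ≤ _ := Nat.pow_le_pow_right (by norm_num) (by nlinarith)
    unfold BB
    omega

theorem main_bound (t : ℕ) (F : Type) [Field F] [Fintype F] (k : ℕ) (htk : t < k)
    (hQ : 2 ^ (24 * t ^ 4 * (t + 1)) ≤ Fintype.card F ^ k) : nu F t k = nuPlus F t k := by
  classical
  have hq : 2 ≤ Fintype.card F := Fintype.one_lt_card
  apply nu_eq_nuPlus htk
  intro n hn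
  rcases Nat.eq_zero_or_pos t with rfl | ht
  · have : {x : Fin (n - 1) → F | wt x < 0} = ∅ := by
      ext x
      simp
    rw [this, Set.ncard_empty]
    exact pow_pos (by omega) _
  · obtain ⟨s, rfl⟩ : ∃ s, t = s + 1 := ⟨t - 1, by omega⟩
    have hB : BB s ^ EE s ≤ Fintype.card F ^ k := by
      refine le_trans ?_ hQ
      calc BB s ^ EE s ≤ (2 ^ (8 * (s + 1) ^ 2)) ^ EE s := Nat.pow_le_pow_left (BB_le s) _
        _ = 2 ^ (24 * (s + 1) ^ 4 * (s + 1 + 1)) := by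
          rw [← pow_mul]
          congr 1
          unfold EE
          ring
    obtain ⟨I, hI, x, hx, hcov, hsmall⟩ := exists_family s F k htk hB
    obtain ⟨y, hy, hycov⟩ := exists_fin_family x hx hcov
    obtain ⟨hkm, C, hC⟩ := isolated_of_family htk y hy hycov
    have h1 : nuPlus F (s + 1) k ≤ (Nat.card I : ℕ∞) := sInf_le ⟨_, hkm, ⟨C, hC⟩, rfl⟩
    have h2 : n < Nat.card I := by
      have := lt_of_lt_of_le hn h1
      exact_mod_cast this
    have h3 : {x : Fin (n - 1) → F | wt x < s + 1} = {x : Fin (n - 1) → F | wt x ≤ s} := by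
      ext x
      exact Nat.lt_succ_iff
    rw [h3]
    refine lt_of_le_of_lt (ball_le s) (lt_of_le_of_lt ?_ hsmall)
    rw [Fintype.card_fin]
    apply Nat.pow_le_pow_left
    gcongr
    omega

theorem main_finset (t : ℕ) : ∃ E : Finset (ℕ × ℕ),
    (∀ p ∈ E, p.1 ^ p.2 < 2 ^ (24 * t ^ 4 * (t + 1))) ∧
    ∀ (F : Type) [Field F] [Fintype F] (k : ℕ), t < k → (Fintype.card F, k) ∉ E →
      nu F t k = nuPlus F t k := by
  set B : ℕ := 2 ^ (24 * t ^ 4 * (t + 1)) with hB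
  refine ⟨(Finset.range B ×ˢ Finset.range B).filter fun p => p.1 ^ p.2 < B, ?_, ?_⟩
  · intro p hp
    exact (Finset.mem_filter.1 hp).2
  · intro F _ _ k htk hE
    apply main_bound t F k htk
    by_contra hlt
    rw [not_le, ← hB] at hlt
    apply hE
    have hq : 2 ≤ Fintype.card F := Fintype.one_lt_card
    rw [Finset.mem_filter, Finset.mem_product, Finset.mem_range, Finset.mem_range]
    refine ⟨⟨?_, ?_⟩, hlt⟩
    · refine lt_of_le_of_lt ?_ hlt
      exact Nat.le_self_pow (by omega) _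
    · refine lt_of_lt_of_le ?_ hlt.le
      calc k < 2 ^ k := Nat.lt_two_pow_self
        _ ≤ Fintype.card F ^ k := Nat.pow_le_pow_left hq k

end Pool.Agent.Helper38.CCG
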