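import Pool.Agent.Helper38.CCG.Count

/-!
# Second moment: most families represent a given vector
-/

namespace Pool.Agent.Helper38.CCG

open Module

variable {F V : Type*} [Field F] [AddCommGroup V] [Module F V]

/-- The structured words of weight `t`: one nonzero entry in each of `t` blocks. -/
def vec {t n : ℕ} (α : Fin t → Fin n × Fˣ) (j : Fin t × Fin n) : F := by
  classical
  exact if (α j.1).1 = j.2 then ((α j.1).2 : F) else 0

theorem vec_self {t n : ℕ} (α : Fin t → Fin n × Fˣ) (i : Fin t) :
    vec (F := F) α (i, (α i).1) = ((α i).2 : F) := by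
  simp [vec]

theorem vec_support {t n : ℕ} (α : Fin t → Fin n × Fˣ) :
    Function.support (vec (F := F) α) = Set.range fun i => (i, (α i).1) := by
  ext ⟨i, l⟩
  simp only [Function.mem_support, vec, Set.mem_range, Prod.mk.injEq]
  constructor
  · intro h
    refine ⟨i, rfl, ?_⟩
    by_contra hne
    exact h (if_neg hne)
  · rintro ⟨i', rfl, h⟩
    rw [if_pos h]
    exact Units.ne_zero _

theorem wt_vec {t n : ℕ} (α : Fin t → Fin n × Fˣ) : wt (vec (F := F) α) = t := by
  unfold wt
  rw [vec_support, ← Set.image_univ, Set.ncard_image_of_injective, Set.ncard_univ,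
    Nat.card_eq_fintype_card, Fintype.card_fin]
  intro i j h
  exact (Prod.mk.inj h).1

theorem vec_injective {t n : ℕ} : Function.Injective (vec (F := F) (t := t) (n := n)) := by
  intro α β h
  funext i
  have h1 := vec_self α i
  rw [h] at h1
  have h2 : (β i).1 = (α i).1 := by
    by_contra hne
    have : vec (F := F) β (i, (α i).1) = 0 := by
      simp [vec, hne]
    rw [this] at h1
    exact Units.ne_zero _ h1.symm
  have h3 := vec_self β i
  rw [h2, h1] at h3
  exact Prod.ext h2.symm (Units.ext h3)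

theorem vec_ne_zero {t n : ℕ} (ht : 1 ≤ t) (α : Fin t → Fin n × Fˣ) :
    vec (F := F) α ≠ 0 := by
  intro h
  have := wt_vec (F := F) α
  rw [h, wt_zero] at this
  omega

theorem sum_ite_eq_ncard {Ω : Type*} [Fintype Ω] (P : Ω → Prop) [DecidablePred P] :
    (∑ Y : Ω, if P Y then (1 : ℝ) else 0) = ({Y : Ω | P Y}.ncard : ℝ) := by
  rw [Finset.sum_boole]
  congr 1
  rw [Set.ncard_eq_toFinset_card']
  congr 1
  ext Y
  simp

theorem moment [Fintype F] [Fintype V] {t n : ℕ} (ht : 1 ≤ t) {p : V} (hp : p ≠ 0) :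
    ({Y : Fin t × Fin n → V | ∀ α : Fin t → Fin n × Fˣ, phi Y (vec (F := F) α) ≠ p}.ncard : ℝ)
      * (Nat.card (Fin t → Fin n × Fˣ) : ℝ)
      ≤ (Nat.card V : ℝ) * (Nat.card (Fin t × Fin n → V) : ℝ) := by
  classical
  set Ω := Fin t × Fin n → V with hΩ
  set A := Fin t → Fin n × Fˣ with hA
  have hcV : Nat.card V = Fintype.card V := Nat.card_eq_fintype_card
  have hcΩ : Nat.card Ω = Fintype.card Ω := Nat.card_eq_fintype_card
  have hcA : Nat.card A = Fintype.card A := Nat.card_eq_fintype_card
  set Q : ℝ := (Nat.card V : ℝ) with hQ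
  set N : ℝ := (Nat.card Ω : ℝ) with hN
  set a : ℝ := (Nat.card A : ℝ) with ha
  let ind : Ω → A → ℝ := fun Y α => if phi Y (vec (F := F) α) = p then 1 else 0
  let Z : Ω → ℝ := fun Y => ∑ α, ind Y α
  have ha0 : 0 ≤ a := Nat.cast_nonneg _
  -- first moment
  have h1 : Q * ∑ Y, Z Y = a * N := by
    have : ∀ α : A, Q * ∑ Y, ind Y α = N := by
      intro α
      rw [sum_ite_eq_ncard]
      have := card_one (V := V) (vec_ne_zero (F := F) ht α) p
      rw [hQ, hN, hcV, hcΩ, mul_comm]
      exact_mod_cast this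
    rw [Finset.sum_comm, Finset.mul_sum, Finset.sum_congr rfl (fun α _ => this α),
      Finset.sum_const, Finset.card_univ, nsmul_eq_mul, ha, hcA]
  -- second moment
  have h2 : Q ^ 2 * ∑ Y, Z Y ^ 2 ≤ Q * a * N + a ^ 2 * N := by
    have hN0 : 0 ≤ N := Nat.cast_nonneg _
    have hpair : ∀ α β : A, Q ^ 2 * ∑ Y, ind Y α * ind Y β
        ≤ (if α = β then Q * N else 0) + N := by
      intro α β
      have he : ∀ Y, ind Y α * ind Y β
          = if (phi Y (vec (F := F) α) = p ∧ phi Y (vec (F := F) β) = p) then 1 else 0 := by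
        intro Y
        simp only [ind]
        by_cases h1 : phi Y (vec (F := F) α) = p
        · by_cases h2 : phi Y (vec (F := F) β) = p
          · simp [h1, h2]
          · simp [h1, h2]
        · simp [h1]
      rw [Finset.sum_congr rfl (fun Y _ => he Y), sum_ite_eq_ncard]
      by_cases hαβ : α = β
      · subst hαβ
        rw [if_pos rfl]
        have := card_one (V := V) (vec_ne_zero (F := F) ht α) p
        have h3 : ({Y : Ω | phi Y (vec (F := F) α) = p ∧ phi Y (vec (F := F) α) = p}.ncard : ℝ)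
            * Q = N := by
          rw [hQ, hN, hcV, hcΩ]
          have h4 : {Y : Ω | phi Y (vec (F := F) α) = p ∧ phi Y (vec (F := F) α) = p}
              = {Y : Ω | phi Y (vec (F := F) α) = p} := by
            ext Y
            simp
          rw [h4]
          exact_mod_cast this
        nlinarith [h3, hN0]
      · rw [if_neg hαβ, zero_add]
        by_cases hr : ∃ r : F, vec (F := F) β = r • vec α
        · obtain ⟨r, hr⟩ := hr
          have hempty : {Y : Ω | phi Y (vec (F := F) α) = p ∧ phi Y (vec (F := F) β) = p} = ∅ := by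
            rw [Set.eq_empty_iff_forall_notMem]
            rintro Y ⟨h3, h4⟩
            rw [hr, phi_smul_right, h3] at h4
            have h5 : r = 1 := by
              by_contra hne
              have : (r - 1) • p = 0 := by
                rw [sub_smul, h4, one_smul, sub_self]
              rcases smul_eq_zero.1 this with h | h
              · exact hne (sub_eq_zero.1 h)
              · exact hp h
            rw [h5, one_smul] at hr
            exact hαβ (vec_injective hr.symm)
          rw [hempty]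
          simp only [Set.ncard_empty, Nat.cast_zero, mul_zero]
          exact hN0
        · push Not at hr
          have := card_two (V := V) (vec_ne_zero (F := F) ht α) hr p p
          rw [hQ, hN, hcV, hcΩ, mul_comm]
          exact_mod_cast this.le
    have hZ : ∀ Y, Z Y ^ 2 = ∑ α, ∑ β, ind Y α * ind Y β := by
      intro Y
      rw [sq, Finset.sum_mul_sum]
    have h3 : Q ^ 2 * ∑ Y, Z Y ^ 2 = ∑ α, ∑ β, Q ^ 2 * ∑ Y, ind Y α * ind Y β := by
      rw [Finset.sum_congr rfl (fun Y _ => hZ Y), Finset.sum_comm]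
      rw [Finset.mul_sum]
      refine Finset.sum_congr rfl fun α _ => ?_
      rw [Finset.sum_comm, Finset.mul_sum]
    rw [h3]
    refine (Finset.sum_le_sum fun α _ => Finset.sum_le_sum fun β _ => hpair α β).trans ?_
    have hd : ∀ α : A, ∑ β, (if α = β then Q * N else 0) = Q * N := by
      intro α
      rw [Finset.sum_eq_single α]
      · simp
      · intro b _ hb
        rw [if_neg (Ne.symm hb)]
      · intro h
        exact absurd (Finset.mem_univ _) h
    simp only [Finset.sum_add_distrib, hd,
      Finset.sum_const, Finset.card_univ, nsmul_eq_mul, ← hcA, ← ha]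
    nlinarith
  -- Chebyshev
  have h4 : ({Y : Ω | ∀ α : A, phi Y (vec (F := F) α) ≠ p}.ncard : ℝ) * a ^ 2
      ≤ ∑ Y, (Q * Z Y - a) ^ 2 := by
    rw [← sum_ite_eq_ncard, Finset.sum_mul]
    refine Finset.sum_le_sum fun Y _ => ?_
    by_cases hY : ∀ α : A, phi Y (vec (F := F) α) ≠ p
    · rw [if_pos hY]
      have hZ0 : Z Y = 0 := Finset.sum_eq_zero fun α _ => if_neg (hY α)
      rw [hZ0]
      ring_nf
      exact le_rfl
    · rw [if_neg hY, zero_mul]
      exact sq_nonneg _
  have h5 : ∑ Y, (Q * Z Y - a) ^ 2 = Q ^ 2 * ∑ Y, Z Y ^ 2 - 2 * a * (Q * ∑ Y, Z Y) + a ^ 2 * N := by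
    have : ∀ Y, (Q * Z Y - a) ^ 2 = Q ^ 2 * Z Y ^ 2 - 2 * a * (Q * Z Y) + a ^ 2 := by
      intro Y
      ring
    rw [Finset.sum_congr rfl (fun Y _ => this Y), Finset.sum_add_distrib, Finset.sum_sub_distrib,
      ← Finset.mul_sum, ← Finset.mul_sum, ← Finset.mul_sum, Finset.sum_const, Finset.card_univ,
      nsmul_eq_mul, ← hcΩ, ← hN]
    ring
  rw [h5, h1] at h4
  have h6 : ({Y : Ω | ∀ α : A, phi Y (vec (F := F) α) ≠ p}.ncard : ℝ) * a ^ 2 ≤ Q * a * N := by
    nlinarith
  rcases ha0.eq_or_lt with h | h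
  · rw [← h, mul_zero]
    positivity
  · have h7 : a * (({Y : Ω | ∀ α : A, phi Y (vec (F := F) α) ≠ p}.ncard : ℝ) * a)
        ≤ a * (Q * N) := by nlinarith
    exact le_of_mul_le_mul_left h7 h

end Pool.Agent.Helper38.CCG
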