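import Pool.Agent.Helper38.CCG.Dual

/-!
# An isolated code disconnects the graph
-/

namespace Pool.Agent.Helper38.CCG

open Module

variable {F : Type*} [Field F] {n : ℕ}

theorem wt_comp_perm (σ : Equiv.Perm (Fin n)) (x : Fin n → F) : wt (x ∘ σ) = wt x := by
  unfold wt
  have : Function.support (x ∘ σ) = σ.symm '' Function.support x := by
    ext i
    simp only [Function.mem_support, Function.comp_apply, Set.mem_image]
    constructor
    · intro h
      exact ⟨σ i, h, by simp⟩
    · rintro ⟨j, hj, rfl⟩
      simpa using hj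
  rw [this, Set.ncard_image_of_injective _ σ.symm.injective]

theorem perm_closed {d j : ℕ} {U : Submodule F (Fin n → F)}
    (hU : finrank F U = j) (dU : DCode d U)
    (huniq : ∀ U' : Submodule F (Fin n → F), finrank F U' = j → DCode d U' → U' = U)
    (σ : Equiv.Perm (Fin n)) {u : Fin n → F} (hu : u ∈ U) : u ∘ σ ∈ U := by
  set e := LinearEquiv.funCongrLeft F F σ with he
  have h1 : U.map (e : (Fin n → F) →ₗ[F] (Fin n → F)) = U := by
    apply huniq
    · rw [← hU]
      exact (LinearEquiv.finrank_map_eq e U)
    · rintro _ ⟨v, hv, rfl⟩ hne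
      have h2 : (e : (Fin n → F) →ₗ[F] (Fin n → F)) v = v ∘ σ := by
        ext i
        simp [he]
      rw [h2, wt_comp_perm]
      refine dU v hv ?_
      rintro rfl
      exact hne (map_zero _)
  rw [← h1]
  refine ⟨u, hu, ?_⟩
  ext i
  simp [he]

theorem exists_second {t k : ℕ} (ht : 1 ≤ t) (htk : t < k) (hkn : k < n)
    (X : Submodule F (Fin n → F)) (hX : IsCode t k X) :
    ∃ Y : Submodule F (Fin n → F), IsCode t k Y ∧ Y ≠ X := by
  by_contra hcon
  push Not at hcon
  obtain ⟨hXr, dU⟩ := isCode_iff.1 hX
  set U := perp X with hUdef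
  have hU : finrank F U = n - k := by rw [hUdef, finrank_perp, hXr]
  have huniq : ∀ U' : Submodule F (Fin n → F), finrank F U' = n - k → DCode (t + 1) U' →
      U' = U := by
    intro U' h1 h2
    have h3 : IsCode t k (perp U') := by
      rw [isCode_iff, finrank_perp, perp_perp]
      exact ⟨by omega, h2⟩
    rw [hUdef, ← hcon _ h3, perp_perp]
  have hperm : ∀ (σ : Equiv.Perm (Fin n)) {u : Fin n → F}, u ∈ U → u ∘ σ ∈ U :=
    fun σ u hu => perm_closed hU dU huniq σ hu
  by_cases hconst : ∀ u ∈ U, ∀ a b, u a = u b
  · -- all words are constant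
    have hle : U ≤ Submodule.span F {(fun _ => 1 : Fin n → F)} := by
      intro u hu
      rw [Submodule.mem_span_singleton]
      refine ⟨u ⟨0, by omega⟩, ?_⟩
      ext i
      simp [hconst u hu ⟨0, by omega⟩ i]
    have h1 : finrank F (Submodule.span F {(fun _ => 1 : Fin n → F)}) ≤ 1 := by
      refine (finrank_span_le_card _).trans ?_
      simp
    have h2 := Submodule.finrank_mono hle
    have hnk : n = k + 1 := by omega
    set a : Fin n := ⟨0, by omega⟩ with ha
    set b : Fin n := ⟨1, by omega⟩ with hb
    have hab : a ≠ b := by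
      rw [ha, hb]
      simp
    set v : Fin n → F := Function.update (fun _ => 1) a 0 with hv
    have hsupp : Function.support v = {a}ᶜ := by
      ext i
      by_cases hi : i = a
      · simp [hv, hi]
      · simp [hv, hi]
    have hwt : wt v = n - 1 := by
      unfold wt
      rw [hsupp, Set.ncard_compl, Set.ncard_singleton]
      simp
    have hv0 : v ≠ 0 := by
      intro h
      have := congrFun h b
      simp [hv, hab.symm] at this
    have h3 : Submodule.span F {v} = U := by
      apply huniq
      · rw [finrank_span_singleton hv0]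
        omega
      · intro u hu hu0
        obtain ⟨c, rfl⟩ := Submodule.mem_span_singleton.1 hu
        have hc : c ≠ 0 := by
          rintro rfl
          exact hu0 (zero_smul _ _)
        rw [wt_smul hc, hwt]
        omega
    have h4 : v ∈ U := by
      rw [← h3]
      exact Submodule.mem_span_singleton_self v
    have h5 := hconst v h4 a b
    simp [hv, hab.symm] at h5
  · push Not at hconst
    obtain ⟨u, hu, a, b, hab⟩ := hconst
    have hne : a ≠ b := fun h => hab (by rw [h])
    have hδ : (Pi.single a 1 - Pi.single b 1 : Fin n → F) ∈ U := by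
      have h1 := U.sub_mem hu (hperm (Equiv.swap a b) hu)
      have h2 : u - u ∘ Equiv.swap a b
          = (u a - u b) • (Pi.single a 1 - Pi.single b 1 : Fin n → F) := by
        ext i
        by_cases hia : i = a
        · subst hia
          simp [hne]
        · by_cases hib : i = b
          · subst hib
            simp [hia]
          · simp [hia, hib, Equiv.swap_apply_of_ne_of_ne hia hib]
      rw [h2] at h1
      exact (U.smul_mem_iff (sub_ne_zero.2 hab)).1 h1
    have hall : ∀ c, (Pi.single a 1 - Pi.single c 1 : Fin n → F) ∈ U := by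
      intro c
      by_cases hca : c = a
      · rw [hca, sub_self]
        exact U.zero_mem
      · have h1 := hperm (Equiv.swap b c) hδ
        have h2 : (Pi.single a 1 - Pi.single b 1 : Fin n → F) ∘ Equiv.swap b c
            = Pi.single a 1 - Pi.single c 1 := by
          ext i
          by_cases hib : i = b
          · subst hib
            simp [Ne.symm hne, Pi.single_apply, hca, eq_comm]
          · by_cases hic : i = c
            · subst hic
              simp [hca, hne.symm]
            · simp [Pi.single_apply, Equiv.swap_apply_of_ne_of_ne hib hic, hib, hic]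
        rwa [h2] at h1
    -- the sum-zero space is contained in `U`
    have hker : LinearMap.ker (∑ i, LinearMap.proj (R := F) (φ := fun _ : Fin n => F) i) ≤ U := by
      intro w hw
      have hsum : ∑ i, w i = 0 := by
        have : (∑ i, LinearMap.proj (R := F) (φ := fun _ : Fin n => F) i) w = 0 := hw
        simpa using this
      have h1 : w = ∑ c, (-(w c)) • (Pi.single a 1 - Pi.single c 1 : Fin n → F) := by
        ext i
        simp only [Finset.sum_apply, Pi.smul_apply, Pi.sub_apply, smul_eq_mul, mul_sub,
          Finset.sum_sub_distrib, ← Finset.sum_mul, Finset.sum_neg_distrib, hsum]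
        simp [Pi.single_apply]
      rw [h1]
      exact U.sum_mem fun c _ => U.smul_mem _ (hall c)
    have h1 := Submodule.finrank_mono hker
    have h2 := LinearMap.finrank_range_add_finrank_ker
      (∑ i, LinearMap.proj (R := F) (φ := fun _ : Fin n => F) i)
    have h3 : finrank F (LinearMap.range
        (∑ i, LinearMap.proj (R := F) (φ := fun _ : Fin n => F) i)) ≤ 1 := by
      refine (Submodule.finrank_le _).trans ?_
      simp
    rw [finrank_fin_fun] at h2
    omega

theorem not_isolated_zero {k : ℕ} (hk : 1 ≤ k) (X : Submodule F (Fin n → F)) :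
    ¬ Isolated 0 k X := by
  rintro ⟨hX, h⟩
  obtain ⟨D, hD, hDr⟩ := exists_le_finrank X (show k - 1 ≤ finrank F X by rw [hX.1]; omega)
  refine h D (lt_of_le_of_ne hD ?_) ⟨hDr, ?_⟩
  · rintro rfl
    rw [hX.1] at hDr
    omega
  · intro w hw _
    have : wt w ≠ 0 := fun h => hw (wt_eq_zero.1 h)
    omega

/-- An isolated code disconnects the graph. -/
theorem not_preconnected_of_isolated {t k : ℕ} (htk : t < k) (hkn : k < n)
    (X : Submodule F (Fin n → F)) (hX : Isolated t k X) : ¬ (Lam F t n k).Preconnected := by
  rcases Nat.eq_zero_or_pos t with rfl | ht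
  · exact absurd hX (not_isolated_zero (by omega) X)
  intro hpre
  obtain ⟨Y, hY, hYX⟩ := exists_second ht htk hkn X hX.1
  have hr := hpre ⟨X, hX.1⟩ ⟨Y, hY⟩
  obtain ⟨p⟩ := hr
  cases p with
  | nil => exact hYX rfl
  | cons hadj _ =>
    rename_i Z _
    obtain ⟨hne, hD⟩ := hadj
    have hne' : X ≠ Z.1 := fun h => hne (Subtype.ext h)
    refine hX.2 (X ⊓ Z.1) (lt_of_le_of_ne inf_le_left fun h => hne' ?_) hD
    have h2 : X ≤ Z.1 := inf_eq_left.1 h
    exact Submodule.eq_of_le_of_finrank_eq h2 (by rw [hX.1.1, Z.2.1])

/-- `nu ≤ nu^+`. -/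
theorem nu_le_nuPlus {t k : ℕ} (htk : t < k) : nu F t k ≤ nuPlus F t k := by
  unfold nu nuPlus
  apply sInf_le_sInf
  rintro m ⟨n, hn, ⟨C, hC⟩, rfl⟩
  exact ⟨n, hn, not_preconnected_of_isolated htk hn C hC, rfl⟩

/-- If the ball of radius `t - 1` is small for all lengths below `nu^+`, then `nu = nu^+`. -/
theorem nu_eq_nuPlus [Fintype F] {t k : ℕ} (htk : t < k)
    (hB : ∀ n : ℕ, (n : ℕ∞) < nuPlus F t k →
      {x : Fin (n - 1) → F | wt x < t}.ncard < Fintype.card F ^ (k - 1)) :
    nu F t k = nuPlus F t k := by
  apply le_antisymm (nu_le_nuPlus htk)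
  unfold nu
  apply le_sInf
  rintro m ⟨n, hn, hpre, rfl⟩
  by_contra hlt
  rw [not_le] at hlt
  apply hpre
  intro X Y
  have hno : ∀ Z : {C : Submodule F (Fin n → F) // IsCode t k C}, ¬ Isolated t k Z.1 := by
    intro Z hZ
    have h1 : nuPlus F t k ≤ (n : ℕ∞) := sInf_le ⟨n, hn, ⟨Z.1, hZ⟩, rfl⟩
    exact absurd hlt (not_lt.2 h1)
  exact nonisolated_reachable (hB n hlt) X Y (hno X) (hno Y)

end Pool.Agent.Helper38.CCG
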